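import Pool.Agent.QC.Word.Gen

/-!
# The number of real roots below a given number
-/

namespace Pool.Agent.QC

open MvPolynomial

section Def

variable {σ : Type*}

/-- The polynomial with coefficients `a k`, `k ≤ n`. -/
noncomputable def rp (a : ℕ → MvPolynomial σ ℤ) (n : ℕ) : Polynomial (MvPolynomial σ ℤ) :=
  ∑ k ∈ Finset.range (n + 1), Polynomial.C (a k) * Polynomial.X ^ k

theorem rp_coeff (a : ℕ → MvPolynomial σ ℤ) (n k : ℕ) :
    (rp a n).coeff k = if k ≤ n then a k else 0 := by
  rw [rp, Polynomial.finsetSum_coeff]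
  simp only [Polynomial.coeff_C_mul, Polynomial.coeff_X_pow, mul_ite, mul_one, mul_zero]
  rw [Finset.sum_ite_eq]
  simp only [Finset.mem_range, Nat.lt_succ_iff]

theorem natDegree_rp_le (a : ℕ → MvPolynomial σ ℤ) (n : ℕ) : (rp a n).natDegree ≤ n := by
  refine Polynomial.natDegree_sum_le_of_forall_le _ _ fun k hk => ?_
  refine (Polynomial.natDegree_C_mul_X_pow_le _ _).trans ?_
  rw [Finset.mem_range] at hk
  omega

theorem eval_cp_real (a b : ℕ → MvPolynomial σ ℤ) (n : ℕ) (x : σ → ℝ) (z : ℝ) :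
    (cp a b n x).eval (z : ℂ) =
      (((spec (rp a n) x).eval z : ℝ) : ℂ) + (((spec (rp b n) x).eval z : ℝ) : ℂ) * Complex.I := by
  have h1 : ∀ a : ℕ → MvPolynomial σ ℤ, (spec (rp a n) x).eval z =
      ∑ k ∈ Finset.range (n + 1), ev x (a k) * z ^ k := by
    intro a
    rw [rp, spec, Polynomial.map_sum, Polynomial.eval_finsetSum]
    simp
  rw [h1, h1, cp, Polynomial.eval_finsetSum]
  push_cast
  rw [Finset.sum_mul, ← Finset.sum_add_distrib]
  refine Finset.sum_congr rfl fun k _ => ?_
  rw [Polynomial.eval_mul, Polynomial.eval_C, Polynomial.eval_pow, Polynomial.eval_X]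
  ring

/-- Its real roots are the real roots of `cp`. -/
noncomputable def gp (a b : ℕ → MvPolynomial σ ℤ) (n : ℕ) : Polynomial (MvPolynomial σ ℤ) :=
  rp a n * rp a n + rp b n * rp b n

theorem eval_gp (a b : ℕ → MvPolynomial σ ℤ) (n : ℕ) (x : σ → ℝ) (z : ℝ) :
    (spec (gp a b n) x).eval z = (spec (rp a n) x).eval z ^ 2 + (spec (rp b n) x).eval z ^ 2 := by
  rw [gp, spec, Polynomial.map_add, Polynomial.map_mul, Polynomial.map_mul, Polynomial.eval_add,
    Polynomial.eval_mul, Polynomial.eval_mul, ← spec, ← spec, pow_two, pow_two]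

theorem eval_gp_eq_zero (a b : ℕ → MvPolynomial σ ℤ) (n : ℕ) (x : σ → ℝ) (z : ℝ) :
    (spec (gp a b n) x).eval z = 0 ↔ (cp a b n x).eval (z : ℂ) = 0 := by
  rw [eval_gp, eval_cp_real]
  constructor
  · intro h
    have h1 : (spec (rp a n) x).eval z = 0 := by
      nlinarith [sq_nonneg ((spec (rp a n) x).eval z), sq_nonneg ((spec (rp b n) x).eval z)]
    have h2 : (spec (rp b n) x).eval z = 0 := by
      nlinarith [sq_nonneg ((spec (rp a n) x).eval z), sq_nonneg ((spec (rp b n) x).eval z)]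
    rw [h1, h2]; simp
  · intro h
    have h1 := congrArg Complex.re h
    have h2 := congrArg Complex.im h
    simp at h1 h2
    rw [h1, h2]; simp

theorem spec_gp_ne_zero {a b : ℕ → MvPolynomial σ ℤ} {n : ℕ} {x : σ → ℝ}
    (h : cp a b n x ≠ 0) : spec (gp a b n) x ≠ 0 := by
  intro h0
  apply h
  refine Polynomial.eq_zero_of_infinite_isRoot _ ?_
  refine (Set.infinite_range_of_injective Complex.ofReal_injective).mono ?_
  rintro _ ⟨z, rfl⟩
  have h1 := (eval_gp_eq_zero a b n x z).1 (by rw [h0, Polynomial.eval_zero])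
  exact h1

/-- The number of real roots below `v`. -/
theorem ncard_real_roots {a b : ℕ → MvPolynomial σ ℤ} {n : ℕ} {x : σ → ℝ}
    (h : cp a b n x ≠ 0) (v : ℝ) :
    {z : ℂ | (cp a b n x).eval z = 0 ∧ z.im = 0 ∧ z.re < v}.ncard =
      ((rootList (spec (gp a b n) x)).filter fun z => decide (z < v)).length := by
  have h1 : {z : ℂ | (cp a b n x).eval z = 0 ∧ z.im = 0 ∧ z.re < v} =
      (fun r : ℝ => (r : ℂ)) '' (((rootList (spec (gp a b n) x)).filter
        fun z => decide (z < v)).toFinset : Set ℝ) := by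
    ext z
    simp only [Set.mem_ofPred_eq, Set.mem_image, List.coe_toFinset, List.mem_filter,
      decide_eq_true_eq, mem_rootList (spec_gp_ne_zero h), eval_gp_eq_zero]
    constructor
    · rintro ⟨h2, h3, h4⟩
      have h5 : z = ((z.re : ℝ) : ℂ) := Complex.ext rfl (by rw [h3]; rfl)
      exact ⟨z.re, ⟨by rw [← h5]; exact h2, h4⟩, h5.symm⟩
    · rintro ⟨r, ⟨h2, h3⟩, rfl⟩
      exact ⟨h2, Complex.ofReal_im r, by rw [Complex.ofReal_re]; exact h3⟩
  rw [h1, Set.ncard_image_of_injective _ Complex.ofReal_injective, Set.ncard_coe_finset,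
    List.toFinset_card_of_nodup]
  refine List.Nodup.filter _ ?_
  exact (sortedLT_rootList _).imp fun h => ne_of_lt h

end Def

section Easy

variable {ι : Type*} {L : ι → ℕ} {σ : ι → Type*} {n : ι → ℕ}
  {a b : ∀ i, ℕ → MvPolynomial (σ i) ℤ}

theorem EasyP.rp (ha : EasyP L (fun i => a i '' Set.Iic (n i))) :
    EasyP L (fun i => Set.range (QC.rp (a i) (n i)).coeff) := by
  refine ha.zero_one.mono fun i => ?_
  rintro _ ⟨k, rfl⟩
  rw [rp_coeff]
  split_ifs with hk
  · exact Or.inl ⟨k, hk, rfl⟩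
  · exact Or.inr (Or.inl rfl)

/-- The number of real roots below an easy number is easy. -/
theorem Easy.count (hn : Bd L n) (ha : EasyP L (fun i => a i '' Set.Iic (n i)))
    (hb : EasyP L (fun i => b i '' Set.Iic (n i))) {v : ∀ i, MvPolynomial (σ i) ℤ}
    (hv : EasyP L (fun i => {v i})) {D : ∀ i, Set (σ i → ℝ)}
    (hD : ∀ i, ∀ x ∈ D i, cp (a i) (b i) (n i) x ≠ 0) :
    Easy L D (fun i x => {z : ℂ | (cp (a i) (b i) (n i) x).eval z = 0 ∧ z.im = 0 ∧
      z.re < ev x (v i)}.ncard) := by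
  have hra : Bd L (fun i => (QC.rp (a i) (n i)).natDegree) := hn.mono fun i => natDegree_rp_le _ _
  have hrb : Bd L (fun i => (QC.rp (b i) (n i)).natDegree) := hn.mono fun i => natDegree_rp_le _ _
  have h1 := EasyP.pmul hra hra ha.rp ha.rp
  have h2 := EasyP.pmul hrb hrb hb.rp hb.rp
  have hd1 : Bd L (fun i => (QC.rp (a i) (n i) * QC.rp (a i) (n i)).natDegree) :=
    (hra.add hra).mono fun i => Polynomial.natDegree_mul_le
  have hd2 : Bd L (fun i => (QC.rp (b i) (n i) * QC.rp (b i) (n i)).natDegree) :=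
    (hrb.add hrb).mono fun i => Polynomial.natDegree_mul_le
  have h3 := EasyP.padd hd1 hd2 h1 h2
  have hd3 : Bd L (fun i => (gp (a i) (b i) (n i)).natDegree) := by
    refine (hd1.add hd2).mono fun i => (Polynomial.natDegree_add_le _ _).trans ?_
    exact max_le (Nat.le_add_right _ _) (Nat.le_add_left _ _)
  have hv' : EasyP L (σ := fun i => Option (σ i))
      (fun i => {MvPolynomial.rename some (v i) - X none}) :=
    (hv.rename1 (τ := fun i => Option (σ i)) fun i => some).sub (EasyP.var1 fun i => none)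
  have h4 := Easy.sign (D := fun _ => Set.univ) hv'
  have h5 := h4.roots h3 hd3 (D := D) (fun _ _ _ _ _ => Set.mem_univ _)
  refine (h5.comp fun i l => (l.filter fun t => decide (t = 1)).length).congr fun i x hx => ?_
  rw [ncard_real_roots (hD i x hx), List.filter_map, List.length_map]
  congr 1
  refine List.filter_congr fun z _ => ?_
  simp only [Function.comp_apply]
  congr 1
  have h6 : ev (pt x z) (MvPolynomial.rename some (v i) - X none) = ev x (v i) - z := by
    rw [ev_sub, ev_X, pt_none]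
    congr 1
    rw [ev_pt, zpoly_rename, Polynomial.map_C, Polynomial.eval_C, evHom_apply]
  rw [h6, sign_eq_one_iff, sub_pos]

end Easy

end Pool.Agent.QC
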