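import Pool.Agent.QC.Word.Nu

/-!
# LEMMA W: the word of the roots along a segment is easy
-/

namespace Pool.Agent.QC

open MvPolynomial

section Pure

theorem charpolyRev_map {R S : Type*} [CommRing R] [CommRing S] (f : R →+* S) {n : ℕ}
    (A : Matrix (Fin n) (Fin n) R) : (A.map f).charpolyRev = A.charpolyRev.map f := by
  rw [Matrix.charpolyRev, Matrix.charpolyRev, ← Polynomial.coe_mapRingHom, RingHom.map_det]
  congr 1
  ext i j : 1
  by_cases h : i = j
  · subst h; simp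
  · simp [Matrix.one_apply_ne h]

theorem coeff_zero_charpolyRev {R : Type*} [CommRing R] {n : ℕ} (A : Matrix (Fin n) (Fin n) R) :
    A.charpolyRev.coeff 0 = 1 := by
  rw [Polynomial.coeff_zero_eq_eval_zero, Matrix.eval_charpolyRev]

theorem natDegree_charpolyRev_le {R : Type*} [CommRing R] [Nontrivial R] {n : ℕ}
    (A : Matrix (Fin n) (Fin n) R) : A.charpolyRev.natDegree ≤ n := by
  rw [← Matrix.reverse_charpoly]
  refine (Polynomial.reverse_natDegree_le _).trans ?_
  rw [Matrix.charpoly_natDegree_eq_dim, Fintype.card_fin]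

/-- Specialisation of the characteristic polynomial of a Hankel matrix. -/
theorem spec_hk {τ : Type*} {m : ℕ} {s : ℕ → MvPolynomial τ ℤ} {x : τ → ℝ} {p : Polynomial ℂ}
    (h : ∀ k ≤ 2 * m ^ 2, ev x (s k) = SR p k) :
    spec (hk (m ^ 2) s).charpolyRev x = (hk (m ^ 2) (SR p)).charpolyRev := by
  have h1 : hk (m ^ 2) (SR p) = (hk (m ^ 2) s).map (evHom x) := by
    rw [map_hk]
    exact hk_congr fun k hk => (h k hk).symm
  rw [h1, spec, charpolyRev_map]

/-- The number of distinct sums, out of the computed polynomial. -/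
theorem card_sroots_eq {τ : Type*} {m : ℕ} {s : ℕ → MvPolynomial τ ℤ} {x : τ → ℝ}
    {p : Polynomial ℂ} (hp : p.natDegree = m) (h : ∀ k ≤ 2 * m ^ 2, ev x (s k) = SR p k) :
    (sroots p (cjW p)).toFinset.card = (spec (hk (m ^ 2) s).charpolyRev x).natDegree := by
  rw [spec_hk h, ← natDegree_hk_SR, hp]

end Pure

section Family

variable {ι : Type*} {L : ι → ℕ} {σ : ι → Type*} {n : ι → ℕ}
  {a b : ∀ i, ℕ → MvPolynomial (Option (σ i)) ℤ}

/-- The polynomial family along the segment. -/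
noncomputable def seg {τ : Type*} (a b : ℕ → MvPolynomial (Option τ) ℤ) (n : ℕ) (y : τ → ℝ)
    (s : ℝ) : Polynomial ℂ := cp a b n (pt y s)

theorem continuous_seg {τ : Type*} (a b : ℕ → MvPolynomial (Option τ) ℤ) (n : ℕ) (y : τ → ℝ)
    (k : ℕ) : Continuous fun s => (seg a b n y s).coeff k := by
  have h1 : ∀ g : MvPolynomial (Option τ) ℤ, Continuous fun s : ℝ => ((ev (pt y s) g : ℝ) : ℂ) := by
    intro g
    simp only [ev_pt_spec]
    exact Complex.continuous_ofReal.comp (Polynomial.continuous _)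
  simp only [seg, cp_coeff]
  split_ifs
  · exact (h1 _).add ((h1 _).mul continuous_const)
  · exact continuous_const

/-- The discriminating polynomial. -/
noncomputable def dp {τ : Type*} (QX QY : Polynomial (MvPolynomial (Option τ) ℤ)) (ν μ : ℕ) :
    MvPolynomial (Option τ) ℤ :=
  X none * (1 - X none) * (QX.coeff ν * QY.coeff μ)

theorem spec_dp {τ : Type*} (QX QY : Polynomial (MvPolynomial (Option τ) ℤ)) (ν μ : ℕ)
    (y : τ → ℝ) : spec (zpoly (dp QX QY ν μ)) y =
      Polynomial.X * (1 - Polynomial.X) *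
        (spec (zpoly (QX.coeff ν)) y * spec (zpoly (QY.coeff μ)) y) := by
  rw [dp, spec_zpoly_mul, spec_zpoly_mul, spec_zpoly_mul]
  congr 2
  · rw [zpoly_none, spec, Polynomial.map_X]
  · have h1 : (1 : MvPolynomial (Option τ) ℤ) = C 1 := by simp
    rw [zpoly_sub, h1, zpoly_C, zpoly_none, spec, Polynomial.map_sub, Polynomial.map_X,
      Polynomial.map_C]
    simp

/-- Where the discriminating polynomial does not vanish, the order type is constant. -/
theorem OT_const_seg {τ : Type*} {a b : ℕ → MvPolynomial (Option τ) ℤ} {n m M : ℕ} {y : τ → ℝ}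
    {s t : ℕ → MvPolynomial (Option τ) ℤ} {ν μ : ℕ}
    (hst : ∀ x, (cp a b n x).natDegree = m → ∀ k ≤ 2 * m ^ 2,
        ev x (s k) = SR (cp a b n x) k ∧ ev x (t k) = SR (rot (cp a b n x)) k)
    (hm : ∀ z ∈ Set.Icc (0 : ℝ) 1, (seg a b n y z).natDegree = m)
    (h0 : ∀ z ∈ Set.Icc (0 : ℝ) 1, seg a b n y z ≠ 0)
    (hM : ∀ z ∈ Set.Icc (0 : ℝ) 1, (seg a b n y z).roots.toFinset.card = M)
    (hν : topIdx (hk (m ^ 2) s).charpolyRev (m ^ 2) y = ν)
    (hμ : topIdx (hk (m ^ 2) t).charpolyRev (m ^ 2) y = μ)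
    {I : Set ℝ} (hI1 : I ⊆ Set.Icc 0 1) (hI : IsPreconnected I)
    (hIP : ∀ z ∈ I, (spec (zpoly (dp (hk (m ^ 2) s).charpolyRev (hk (m ^ 2) t).charpolyRev ν μ))
      y).eval z ≠ 0) :
    ∀ z ∈ I, ∀ z' ∈ I, Lab.OT (seg a b n y z) = Lab.OT (seg a b n y z') := by
  have hx : ∀ z ∈ I, (sroots (seg a b n y z) (cjW (seg a b n y z))).toFinset.card = ν ∧
      (sroots (rot (seg a b n y z)) (cjW (rot (seg a b n y z)))).toFinset.card = μ := by
    intro z hz
    have h1 := hIP z hz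
    rw [spec_dp, Polynomial.eval_mul, Polynomial.eval_mul, Polynomial.eval_mul] at h1
    have h2 := (mul_ne_zero_iff.1 (mul_ne_zero_iff.1 h1).2)
    have h3 := hst _ (hm z (hI1 hz))
    constructor
    · rw [card_sroots_eq (x := pt y z) (s := s) (hm z (hI1 hz)) fun k hk => (h3 k hk).1, ← hν]
      refine natDegree_topIdx (natDegree_charpolyRev_le _) ?_
      rw [hν, ev_pt_spec]
      exact h2.1
    · rw [card_sroots_eq (x := pt y z) (s := t) (m := m) (p := rot (seg a b n y z))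
        (by rw [natDegree_rot]; exact hm z (hI1 hz)) fun k hk => (h3 k hk).2, ← hμ]
      refine natDegree_topIdx (natDegree_charpolyRev_le _) ?_
      rw [hμ, ev_pt_spec]
      exact h2.2
  refine OT_const_fam hI hI1 (fun k => (continuous_seg a b n y k).continuousOn) hm h0 hM ?_ ?_
  · intro z hz z' hz'
    rw [(hx z hz).1, (hx z' hz').1]
  · intro z hz z' hz'
    have h1 := (hx z hz).2
    have h2 := (hx z' hz').2
    rw [rot] at h1 h2
    rw [h1, h2]

/-- The function on the order types along the segment. -/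
noncomputable def segWord {τ : Type*} (a b : ℕ → MvPolynomial (Option τ) ℤ) (n : ℕ)
    (y : τ → ℝ) : Wrd := word fun s => {z | (cp a b n (pt y s)).eval z = 0}

theorem segWord_eq {τ : Type*} {a b : ℕ → MvPolynomial (Option τ) ℤ} {n m M M' : ℕ}
    {y y' : τ → ℝ} {s t : ℕ → MvPolynomial (Option τ) ℤ} {ν μ : ℕ}
    (hst : ∀ x, (cp a b n x).natDegree = m → ∀ k ≤ 2 * m ^ 2,
        ev x (s k) = SR (cp a b n x) k ∧ ev x (t k) = SR (rot (cp a b n x)) k)
    (hm : ∀ z ∈ Set.Icc (0 : ℝ) 1, (seg a b n y z).natDegree = m)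
    (h0 : ∀ z ∈ Set.Icc (0 : ℝ) 1, seg a b n y z ≠ 0)
    (hM : ∀ z ∈ Set.Icc (0 : ℝ) 1, (seg a b n y z).roots.toFinset.card = M)
    (hν : topIdx (hk (m ^ 2) s).charpolyRev (m ^ 2) y = ν)
    (hμ : topIdx (hk (m ^ 2) t).charpolyRev (m ^ 2) y = μ)
    (hm' : ∀ z ∈ Set.Icc (0 : ℝ) 1, (seg a b n y' z).natDegree = m)
    (h0' : ∀ z ∈ Set.Icc (0 : ℝ) 1, seg a b n y' z ≠ 0)
    (hM' : ∀ z ∈ Set.Icc (0 : ℝ) 1, (seg a b n y' z).roots.toFinset.card = M')
    (hν' : topIdx (hk (m ^ 2) s).charpolyRev (m ^ 2) y' = ν)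
    (hμ' : topIdx (hk (m ^ 2) t).charpolyRev (m ^ 2) y' = μ)
    (h : (rootList (spec (zpoly (dp (hk (m ^ 2) s).charpolyRev (hk (m ^ 2) t).charpolyRev ν μ)) y *
          Polynomial.derivative (spec (zpoly (dp (hk (m ^ 2) s).charpolyRev
            (hk (m ^ 2) t).charpolyRev ν μ)) y))).map (fun z => (SignType.sign z,
        SignType.sign (1 - z), SignType.sign ((spec (zpoly (dp (hk (m ^ 2) s).charpolyRev
          (hk (m ^ 2) t).charpolyRev ν μ)) y).eval z), Lab.OT (seg a b n y z))) =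
      (rootList (spec (zpoly (dp (hk (m ^ 2) s).charpolyRev (hk (m ^ 2) t).charpolyRev ν μ)) y' *
          Polynomial.derivative (spec (zpoly (dp (hk (m ^ 2) s).charpolyRev
            (hk (m ^ 2) t).charpolyRev ν μ)) y'))).map (fun z => (SignType.sign z,
        SignType.sign (1 - z), SignType.sign ((spec (zpoly (dp (hk (m ^ 2) s).charpolyRev
          (hk (m ^ 2) t).charpolyRev ν μ)) y').eval z), Lab.OT (seg a b n y' z)))) :
    segWord a b n y = segWord a b n y' := by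
  have hne : ∀ y : τ → ℝ, topIdx (hk (m ^ 2) s).charpolyRev (m ^ 2) y = ν →
      topIdx (hk (m ^ 2) t).charpolyRev (m ^ 2) y = μ →
      spec (zpoly (dp (hk (m ^ 2) s).charpolyRev (hk (m ^ 2) t).charpolyRev ν μ)) y ≠ 0 := by
    intro y hν hμ
    have h1 : ∀ s : ℕ → MvPolynomial (Option τ) ℤ,
        spec (zpoly ((hk (m ^ 2) s).charpolyRev.coeff 0)) y ≠ 0 := by
      intro s
      rw [coeff_zero_charpolyRev]
      have h1 : (1 : MvPolynomial (Option τ) ℤ) = C 1 := by simp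
      rw [h1, zpoly_C, spec, Polynomial.map_C]
      simp
    rw [spec_dp]
    refine mul_ne_zero (mul_ne_zero Polynomial.X_ne_zero ?_) (mul_ne_zero ?_ ?_)
    · intro h2
      have h3 := congrArg (Polynomial.eval 0) h2
      simp at h3
    · rw [← hν]; exact topIdx_spec (Nat.zero_le _) (h1 s)
    · rw [← hμ]; exact topIdx_spec (Nat.zero_le _) (h1 t)
  have he0 : ∀ y : τ → ℝ, (spec (zpoly (dp (hk (m ^ 2) s).charpolyRev
      (hk (m ^ 2) t).charpolyRev ν μ)) y).eval 0 = 0 := by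
    intro y; rw [spec_dp]; simp
  have he1 : ∀ y : τ → ℝ, (spec (zpoly (dp (hk (m ^ 2) s).charpolyRev
      (hk (m ^ 2) t).charpolyRev ν μ)) y).eval 1 = 0 := by
    intro y; rw [spec_dp]; simp
  obtain ⟨φ, hφ⟩ := exists_iso_of_list (fun z => Lab.OT (seg a b n y z))
    (fun z => Lab.OT (seg a b n y' z)) _ _ (hne y hν hμ) (hne y' hν' hμ') (he0 y) (he1 y) (he0 y')
    (he1 y') (fun I hI1 hI hIP => OT_const_seg hst hm h0 hM hν hμ hI1 hI hIP)
    (fun I hI1 hI hIP => OT_const_seg hst hm' h0' hM' hν' hμ' hI1 hI hIP) h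
  refine Quotient.sound ⟨φ, fun z => ?_⟩
  have h1 := hφ z
  show QC.OT {w | (seg a b n y z).eval w = 0} = QC.OT {w | (seg a b n y' (φ z)).eval w = 0}
  rw [OT_zeros (h0 z z.2), OT_zeros (h0' (φ z) (φ z).2), h1]

/-- Fixed degree and fixed top indices. -/
theorem Easy.segWord_fix {m ν μ : ι → ℕ} (hn : Bd L n) (hmn : ∀ i, m i ≤ n i)
    (ha : EasyP L (σ := fun i => Option (σ i)) (fun i => a i '' Set.Iic (n i)))
    (hb : EasyP L (σ := fun i => Option (σ i)) (fun i => b i '' Set.Iic (n i)))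
    {s t : ∀ i, ℕ → MvPolynomial (Option (σ i)) ℤ}
    (hs : EasyP L (σ := fun i => Option (σ i)) (fun i => s i '' Set.Iic (2 * m i ^ 2)))
    (ht : EasyP L (σ := fun i => Option (σ i)) (fun i => t i '' Set.Iic (2 * m i ^ 2)))
    (hst : ∀ i, ∀ x, (cp (a i) (b i) (n i) x).natDegree = m i → ∀ k ≤ 2 * m i ^ 2,
        ev x (s i k) = SR (cp (a i) (b i) (n i) x) k ∧
        ev x (t i k) = SR (QC.rot (cp (a i) (b i) (n i) x)) k)
    {D : ∀ i, Set (σ i → ℝ)}
    (hD : ∀ i, ∀ y ∈ D i, ∃ M : ℕ, ∀ z ∈ Set.Icc (0 : ℝ) 1, (seg (a i) (b i) (n i) y z).natDegree = m i ∧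
      seg (a i) (b i) (n i) y z ≠ 0 ∧ (seg (a i) (b i) (n i) y z).roots.toFinset.card = M)
    (hν : ∀ i, ∀ y ∈ D i, QC.topIdx (hk (m i ^ 2) (s i)).charpolyRev (m i ^ 2) y = ν i)
    (hμ : ∀ i, ∀ y ∈ D i, QC.topIdx (hk (m i ^ 2) (t i)).charpolyRev (m i ^ 2) y = μ i) :
    Easy L D (fun i y => segWord (a i) (b i) (n i) y) := by
  have hm : Bd L m := hn.mono hmn
  have hN : Bd L (fun i => m i ^ 2) := hm.pow 2
  have hX := EasyP.hk hN hs
  have hY := EasyP.hk hN ht
  have hv := EasyP.var1 (L := L) (σ := fun i => Option (σ i)) (fun i => none)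
  have h1v : EasyP L (σ := fun i => Option (σ i))
      (fun i => {(1 - X none : MvPolynomial (Option (σ i)) ℤ)}) := by
    have h1 := (EasyP.const (L := L) (σ := fun i => Option (σ i)) (fun _ => 1)).sub hv
    simpa using h1
  have hdp : EasyP L (σ := fun i => Option (σ i))
      (fun i => {dp (hk (m i ^ 2) (s i)).charpolyRev (hk (m i ^ 2) (t i)).charpolyRev (ν i) (μ i)}) :=
    (hv.mul h1v).mul ((hX.of_mem (p := fun i => (hk (m i ^ 2) (s i)).charpolyRev.coeff (ν i))
      fun i => ⟨_, rfl⟩).mul (hY.of_mem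
        (p := fun i => (hk (m i ^ 2) (t i)).charpolyRev.coeff (μ i)) fun i => ⟨_, rfl⟩))
  -- the function at one point
  have h1 := Easy.sign (D := fun _ => Set.univ) hv
  have h2 := Easy.sign (D := fun _ => Set.univ) h1v
  have h3 := Easy.sign (D := fun _ => Set.univ) hdp
  have h4 := Easy.OTc (D := fun _ => Set.univ) hn ha hb
  have h5 := h1.pair (h2.pair (h3.pair h4))
  -- the roots
  have hz : EasyP L (σ := σ) (fun i => Set.range (zpoly (dp (hk (m i ^ 2) (s i)).charpolyRev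
      (hk (m i ^ 2) (t i)).charpolyRev (ν i) (μ i))).coeff) :=
    hdp.zc.mono fun i => by
      rintro _ ⟨j, rfl⟩
      exact ⟨_, rfl, j, rfl⟩
  have hzd : Bd L (fun i => (zpoly (dp (hk (m i ^ 2) (s i)).charpolyRev
      (hk (m i ^ 2) (t i)).charpolyRev (ν i) (μ i))).natDegree) := by
    obtain ⟨B, hB, _, _, h2⟩ := hdp.bd
    exact hB.mono fun i => (natDegree_zpoly _).trans (h2 i _ rfl)
  have hder := EasyP.pder hzd hz
  have hderd : Bd L (fun i => (Polynomial.derivative (zpoly (dp (hk (m i ^ 2) (s i)).charpolyRev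
      (hk (m i ^ 2) (t i)).charpolyRev (ν i) (μ i)))).natDegree) :=
    hzd.mono fun i => (Polynomial.natDegree_derivative_le _).trans (Nat.sub_le _ _)
  have hprod := EasyP.pmul hzd hderd hz hder
  have h6 := h5.roots hprod ((hzd.add hderd).mono fun i => Polynomial.natDegree_mul_le) (D := D)
    (fun _ _ _ _ _ => Set.mem_univ _)
  refine h6.factor fun i y hy y' hy' hyy => ?_
  obtain ⟨M, hM⟩ := hD i y hy
  obtain ⟨M', hM'⟩ := hD i y' hy'
  refine segWord_eq (hst i) (fun z hz => (hM z hz).1) (fun z hz => (hM z hz).2.1)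
    (fun z hz => (hM z hz).2.2) (hν i y hy) (hμ i y hy) (fun z hz => (hM' z hz).1)
    (fun z hz => (hM' z hz).2.1) (fun z hz => (hM' z hz).2.2) (hν i y' hy') (hμ i y' hy') ?_
  have hspec : ∀ y : σ i → ℝ, spec (zpoly (dp (hk (m i ^ 2) (s i)).charpolyRev
      (hk (m i ^ 2) (t i)).charpolyRev (ν i) (μ i)) *
        Polynomial.derivative (zpoly (dp (hk (m i ^ 2) (s i)).charpolyRev
      (hk (m i ^ 2) (t i)).charpolyRev (ν i) (μ i)))) y =
      spec (zpoly (dp (hk (m i ^ 2) (s i)).charpolyRev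
      (hk (m i ^ 2) (t i)).charpolyRev (ν i) (μ i))) y *
      Polynomial.derivative (spec (zpoly (dp (hk (m i ^ 2) (s i)).charpolyRev
      (hk (m i ^ 2) (t i)).charpolyRev (ν i) (μ i))) y) := by
    intro y
    rw [spec, spec, Polynomial.map_mul, Polynomial.derivative_map]
  simp only [hspec] at hyy
  have hev : ∀ (y : σ i → ℝ) (z : ℝ), ev (pt y z) (X none) = z ∧
      ev (pt y z) (1 - X none) = 1 - z := by
    intro y z
    constructor
    · rw [ev_X, pt_none]
    · rw [ev_sub, ev_X, ev_one, pt_none]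
  simp only [(hev _ _).1, (hev _ _).2, ev_pt_spec (dp _ _ _ _)] at hyy
  exact hyy

/-- Fixed degree. -/
theorem Easy.segWord_deg {m : ι → ℕ} (hn : Bd L n) (hmn : ∀ i, m i ≤ n i)
    (ha : EasyP L (σ := fun i => Option (σ i)) (fun i => a i '' Set.Iic (n i)))
    (hb : EasyP L (σ := fun i => Option (σ i)) (fun i => b i '' Set.Iic (n i)))
    {D : ∀ i, Set (σ i → ℝ)}
    (hD : ∀ i, ∀ y ∈ D i, ∃ M : ℕ, ∀ z ∈ Set.Icc (0 : ℝ) 1, (seg (a i) (b i) (n i) y z).natDegree = m i ∧
      seg (a i) (b i) (n i) y z ≠ 0 ∧ (seg (a i) (b i) (n i) y z).roots.toFinset.card = M) :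
    Easy L D (fun i y => segWord (a i) (b i) (n i) y) := by
  have hm : Bd L m := hn.mono hmn
  have hN : Bd L (fun i => m i ^ 2) := hm.pow 2
  obtain ⟨s, t, hs, ht, hst⟩ := EasyP.sr2 (σ := fun i => Option (σ i)) hn hmn ha hb
  have h1 := (Easy.topIdx (D := D) hN (EasyP.hk hN hs)).pair
    (Easy.topIdx (D := D) hN (EasyP.hk hN ht))
  refine h1.bind ?_
  let g : (Σ _ : ι, ℕ × ℕ) → ι := fun p => p.1
  refine Easy.segWord_fix (L := fun p => L (g p)) (n := fun p => n (g p)) (m := fun p => m (g p))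
    (ν := fun p => p.2.1) (μ := fun p => p.2.2) (s := fun p => s (g p)) (t := fun p => t (g p))
    (a := fun p => a (g p)) (b := fun p => b (g p)) (hn.comap g) (fun p => hmn _)
    (EasyP.comap (σ := fun i => Option (σ i)) g ha) (EasyP.comap (σ := fun i => Option (σ i)) g hb)
    (EasyP.comap (σ := fun i => Option (σ i)) g hs) (EasyP.comap (σ := fun i => Option (σ i)) g ht)
    (fun p => hst _) (fun p y hy => hD _ y hy.1) (fun p y hy => ?_) (fun p y hy => ?_)
  · exact congrArg Prod.fst hy.2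
  · exact congrArg Prod.snd hy.2

/-- **LEMMA W.** -/
theorem Easy.segWord (hn : Bd L n)
    (ha : EasyP L (σ := fun i => Option (σ i)) (fun i => a i '' Set.Iic (n i)))
    (hb : EasyP L (σ := fun i => Option (σ i)) (fun i => b i '' Set.Iic (n i)))
    {D : ∀ i, Set (σ i → ℝ)}
    (hD : ∀ i, ∀ y ∈ D i, ∃ m M : ℕ, ∀ z ∈ Set.Icc (0 : ℝ) 1,
      cp (a i) (b i) (n i) (pt y z) ≠ 0 ∧ (cp (a i) (b i) (n i) (pt y z)).natDegree = m ∧
      (cp (a i) (b i) (n i) (pt y z)).roots.toFinset.card = M) :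
    Easy L D (fun i y => word fun s => {z | (cp (a i) (b i) (n i) (pt y s)).eval z = 0}) := by
  have hu : EasyP L (σ := σ) (fun i => Set.range fun o : Option (σ i) =>
      (o.elim 0 X : MvPolynomial (σ i) ℤ)) := by
    refine (EasyP.vars (L := L) (σ := σ)).zero_one.mono fun i => ?_
    rintro _ ⟨o, rfl⟩
    cases o with
    | none => exact Or.inr (Or.inl rfl)
    | some j => exact Or.inl ⟨j, rfl⟩
  have hspt : ∀ i (y : σ i → ℝ), spt (fun o : Option (σ i) =>
      (o.elim 0 X : MvPolynomial (σ i) ℤ)) y = pt y 0 := by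
    intro i y
    funext o
    cases o with
    | none => exact ev_zero y
    | some j => exact ev_X y j
  have h1 : Easy L D (fun i y => (cp (a i) (b i) (n i) (pt y 0)).natDegree) := by
    have h2 := (Easy.degree (σ := fun i => Option (σ i)) (D := fun _ => Set.univ) hn ha hb).subst
      (D₁ := D) hu (fun _ _ _ => Set.mem_univ _)
    exact h2.congr fun i y _ => by rw [hspt]
  refine h1.bind' ?_
  let g : {p : Σ _ : ι, ℕ // (D p.1 ∩ (fun y => (cp (a p.1) (b p.1) (n p.1) (pt y 0)).natDegree) ⁻¹'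
    {p.2}).Nonempty} → ι := fun p => p.1.1
  refine Easy.segWord_deg (L := fun p => L (g p)) (n := fun p => n (g p)) (m := fun p => p.1.2)
    (a := fun p => a (g p)) (b := fun p => b (g p)) (hn.comap g) (fun p => ?_)
    (EasyP.comap (σ := fun i => Option (σ i)) g ha) (EasyP.comap (σ := fun i => Option (σ i)) g hb)
    (fun p y hy => ?_)
  · obtain ⟨y, _, hy⟩ := p.2
    rw [← show (cp (a p.1.1) (b p.1.1) (n p.1.1) (pt y 0)).natDegree = p.1.2 from hy]
    exact natDegree_cp_le _ _ _ _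
  · obtain ⟨m, M, hM⟩ := hD _ y hy.1
    have h3 := (hM 0 ⟨le_rfl, zero_le_one⟩).2.1
    have h4 : (cp (a p.1.1) (b p.1.1) (n p.1.1) (pt y 0)).natDegree = p.1.2 := hy.2
    have h5 : m = p.1.2 := h3.symm.trans h4
    subst h5
    exact ⟨M, fun z hz => ⟨(hM z hz).2.1, (hM z hz).1, (hM z hz).2.2⟩⟩

end Family

end Pool.Agent.QC
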