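import Pool.Agent.QC.Lab.Defs

/-!
# Constancy of order types, matching of words (MP_7c50a9_lc, 10.3 and section 7)

`part_const`: if the number of distinct values of finitely many continuous functions is constant on a
connected set, then the equalities between them are constant.
`OT_const`: constancy of the order type of the values.
`exists_homeo`: the piecewise linear homeomorphism which matches two words.
-/

set_option autoImplicit false

namespace Pool.Agent.QC.Word

open Set Filter Topology Pool.Agent.QC.Lab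

/-- Equalities between finitely many continuous functions. -/
theorem part_const {A : Type*} [Finite A] (I : Set ℝ) (hI : IsPreconnected I) (f : A → ℝ → ℂ)
    (hf : ∀ a, ContinuousOn (f a) I)
    (hcard : ∀ s ∈ I, ∀ t ∈ I, (Set.range fun a => f a s).ncard = (Set.range fun a => f a t).ncard) :
    ∀ a b, (∀ s ∈ I, f a s = f b s) ∨ (∀ s ∈ I, f a s ≠ f b s) := by
  classical
  -- near `s₀` the equalities are the same
  have key : ∀ s₀ ∈ I, ∀ᶠ s in 𝓝[I] s₀, ∀ c d, (f c s = f d s ↔ f c s₀ = f d s₀) := by
    intro s₀ hs₀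
    have h1 : ∀ᶠ s in 𝓝[I] s₀, ∀ c d, f c s₀ ≠ f d s₀ → f c s ≠ f d s := by
      rw [eventually_all]
      intro c
      rw [eventually_all]
      intro d
      by_cases h : f c s₀ = f d s₀
      · exact Eventually.of_forall fun s h' => absurd h h'
      · have h2 : Tendsto (fun s => f c s - f d s) (𝓝[I] s₀) (𝓝 (f c s₀ - f d s₀)) :=
          (hf c s₀ hs₀).sub (hf d s₀ hs₀)
        filter_upwards [h2.eventually_ne (sub_ne_zero.2 h)] with s hs _
        exact sub_ne_zero.1 hs
    filter_upwards [h1, self_mem_nhdsWithin] with s hs hsI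
    have hfac : (fun c => f c s₀).FactorsThrough (fun c => f c s) := by
      intro c d hcd
      by_contra hne
      exact hs c d hne hcd
    set g : ℂ → ℂ := Function.extend (fun c => f c s) (fun c => f c s₀) id
    have hg : ∀ c, g (f c s) = f c s₀ := fun c => hfac.extend_apply id c
    have himg : g '' (Set.range fun a => f a s) = Set.range fun a => f a s₀ := by
      rw [← Set.range_comp]
      exact congrArg Set.range (funext hg)
    have hfin : (Set.range fun a => f a s).Finite := Set.finite_range _
    have hinj : Set.InjOn g (Set.range fun a => f a s) := by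
      rw [← Set.ncard_image_iff hfin, himg]
      exact hcard s₀ hs₀ s hsI
    intro c d
    refine ⟨fun h => ?_, fun h => ?_⟩
    · by_contra hne
      exact hs c d hne h
    · exact hinj ⟨c, rfl⟩ ⟨d, rfl⟩ (by rw [hg, hg, h])
  intro a b
  have hloc : ContinuousOn (fun s => decide (f a s = f b s)) I := by
    intro s₀ hs₀
    refine ContinuousWithinAt.congr_of_eventuallyEq
      (f := fun _ => decide (f a s₀ = f b s₀)) continuousWithinAt_const ?_ rfl
    filter_upwards [key s₀ hs₀] with s hs
    exact decide_eq_decide.2 (hs a b)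
  by_cases h : ∃ s ∈ I, f a s = f b s
  · obtain ⟨s, hs, hs'⟩ := h
    left
    intro t ht
    have h2 := hI.constant hloc hs ht
    exact (decide_eq_decide.1 h2).1 hs'
  · right
    push Not at h
    exact h

/-- A continuous function without zeros has a constant sign. -/
private theorem sign_const {I : Set ℝ} (hI : IsPreconnected I) {g : ℝ → ℝ} (hg : ContinuousOn g I)
    (h : (∀ s ∈ I, g s = 0) ∨ (∀ s ∈ I, g s ≠ 0)) {s t : ℝ} (hs : s ∈ I) (ht : t ∈ I)
    (h0 : 0 < g s) : 0 < g t := by
  rcases h with h | h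
  · exact absurd (h s hs) h0.ne'
  · by_contra hc
    push Not at hc
    obtain ⟨r, hr, hr'⟩ := hI.intermediate_value ht hs hg ⟨hc, h0.le⟩
    exact h r hr hr'

/-- Ranks of the values of two functions with the same order. -/
private theorem rk_eq {ι : Type*} [Fintype ι] (x x' : ι → ℝ) (h : ∀ i j, x i < x j ↔ x' i < x' j)
    (i : ι) : rk (Finset.univ.image x) (x i) = rk (Finset.univ.image x') (x' i) := by
  classical
  have he : ∀ i j, x i = x j ↔ x' i = x' j := by
    intro i j
    have h1 := h i j
    have h2 := h j i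
    constructor
    · intro e
      rw [e] at h1 h2
      exact le_antisymm (not_lt.1 fun h3 => lt_irrefl _ (h2.2 h3))
        (not_lt.1 fun h3 => lt_irrefl _ (h1.2 h3))
    · intro e
      rw [e] at h1 h2
      exact le_antisymm (not_lt.1 fun h3 => lt_irrefl _ (h2.1 h3))
        (not_lt.1 fun h3 => lt_irrefl _ (h1.1 h3))
  have hfac : x'.FactorsThrough x := fun a b hab => (he a b).1 hab
  set g : ℝ → ℝ := Function.extend x x' id
  have hg : ∀ c, g (x c) = x' c := fun c => hfac.extend_apply id c
  unfold rk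
  have h1 : (Finset.univ.image x').filter (fun y => y < x' i) =
      ((Finset.univ.image x).filter fun y => y < x i).image g := by
    ext y
    simp only [Finset.mem_filter, Finset.mem_image, Finset.mem_univ, true_and]
    constructor
    · rintro ⟨⟨j, rfl⟩, hj⟩
      exact ⟨x j, ⟨⟨j, rfl⟩, (h j i).2 hj⟩, hg j⟩
    · rintro ⟨_, ⟨⟨j, rfl⟩, hj⟩, rfl⟩
      rw [hg]
      exact ⟨⟨j, rfl⟩, (h j i).1 hj⟩
  rw [h1, Finset.card_image_of_injOn]
  rintro _ ha _ hb hab
  simp only [Finset.coe_filter, Finset.mem_image, Finset.mem_univ, true_and,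
    Set.mem_ofPred_eq] at ha hb
  obtain ⟨⟨a, rfl⟩, -⟩ := ha
  obtain ⟨⟨b, rfl⟩, -⟩ := hb
  rw [hg, hg] at hab
  exact (he a b).2 hab

/-- Constancy of the order type. -/
theorem OT_const {M : ℕ} {I : Set ℝ} (hI : IsPreconnected I) (z : Fin M → ℝ → ℂ)
    (hc : ∀ j, ContinuousOn (z j) I)
    (hX : ∀ s ∈ I, ∀ t ∈ I,
      (Set.range fun p : Fin M × Fin M => z p.1 s + (starRingEnd ℂ) (z p.2 s)).ncard =
      (Set.range fun p : Fin M × Fin M => z p.1 t + (starRingEnd ℂ) (z p.2 t)).ncard)
    (hY : ∀ s ∈ I, ∀ t ∈ I,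
      (Set.range fun p : Fin M × Fin M => z p.1 s - (starRingEnd ℂ) (z p.2 s)).ncard =
      (Set.range fun p : Fin M × Fin M => z p.1 t - (starRingEnd ℂ) (z p.2 t)).ncard) :
    ∀ s ∈ I, ∀ t ∈ I, OTs (Finset.univ.image fun j => z j s) =
      OTs (Finset.univ.image fun j => z j t) := by
  have eI : ∀ i j, (∀ s ∈ I, (z i s).im - (z j s).im = 0) ∨
      (∀ s ∈ I, (z i s).im - (z j s).im ≠ 0) := by
    intro i j
    have key : ∀ s, (z i s + (starRingEnd ℂ) (z j s) = z j s + (starRingEnd ℂ) (z i s)) ↔
        (z i s).im - (z j s).im = 0 := by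
      intro s
      rw [Complex.ext_iff]
      simp only [Complex.add_re, Complex.conj_re, Complex.add_im, Complex.conj_im]
      constructor
      · rintro ⟨-, h⟩; linarith
      · intro h; constructor <;> linarith
    have h1 := part_const I hI
      (fun (p : Fin M × Fin M) s => z p.1 s + (starRingEnd ℂ) (z p.2 s))
      (fun p => (hc p.1).add (Complex.continuous_conj.comp_continuousOn (hc p.2))) hX (i, j) (j, i)
    rcases h1 with h | h
    · exact Or.inl fun s hs => (key s).1 (h s hs)
    · exact Or.inr fun s hs h' => h s hs ((key s).2 h')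
  have eR : ∀ i j, (∀ s ∈ I, (z i s).re - (z j s).re = 0) ∨
      (∀ s ∈ I, (z i s).re - (z j s).re ≠ 0) := by
    intro i j
    have key : ∀ s, (z i s - (starRingEnd ℂ) (z j s) = z j s - (starRingEnd ℂ) (z i s)) ↔
        (z i s).re - (z j s).re = 0 := by
      intro s
      rw [Complex.ext_iff]
      simp only [Complex.sub_re, Complex.conj_re, Complex.sub_im, Complex.conj_im]
      constructor
      · rintro ⟨h, -⟩; linarith
      · intro h; constructor <;> linarith
    have h1 := part_const I hI
      (fun (p : Fin M × Fin M) s => z p.1 s - (starRingEnd ℂ) (z p.2 s))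
      (fun p => (hc p.1).sub (Complex.continuous_conj.comp_continuousOn (hc p.2))) hY (i, j) (j, i)
    rcases h1 with h | h
    · exact Or.inl fun s hs => (key s).1 (h s hs)
    · exact Or.inr fun s hs h' => h s hs ((key s).2 h')
  have cI : ∀ i, ContinuousOn (fun s => (z i s).im) I := fun i =>
    Complex.continuous_im.comp_continuousOn (hc i)
  have cR : ∀ i, ContinuousOn (fun s => (z i s).re) I := fun i =>
    Complex.continuous_re.comp_continuousOn (hc i)
  have hI' : ∀ s ∈ I, ∀ t ∈ I, ∀ i j, (z i s).im < (z j s).im → (z i t).im < (z j t).im := by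
    intro s hs t ht i j hij
    exact sub_pos.1 (sign_const hI ((cI j).sub (cI i)) (eI j i) hs ht (sub_pos.2 hij))
  have hR' : ∀ s ∈ I, ∀ t ∈ I, ∀ i j, (z i s).re < (z j s).re → (z i t).re < (z j t).re := by
    intro s hs t ht i j hij
    exact sub_pos.1 (sign_const hI ((cR j).sub (cR i)) (eR j i) hs ht (sub_pos.2 hij))
  intro s hs t ht
  unfold OTs
  rw [Finset.image_image, Finset.image_image]
  refine congrArg (Finset.image · Finset.univ) (funext fun j => ?_)
  show pr (Finset.univ.image fun j => z j s) (z j s) = pr (Finset.univ.image fun j => z j t) (z j t)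
  unfold pr
  rw [Finset.image_image, Finset.image_image, Finset.image_image, Finset.image_image]
  exact congrArg₂ Prod.mk
    (rk_eq (fun j => (z j s).re) (fun j => (z j t).re)
      (fun a b => ⟨hR' s hs t ht a b, hR' t ht s hs a b⟩) j)
    (rk_eq (fun j => (z j s).im) (fun j => (z j t).im)
      (fun a b => ⟨hI' s hs t ht a b, hI' t ht s hs a b⟩) j)

/-- The piecewise linear function through the points `(a i, b i)`. -/
private theorem exists_pl (a b : ℕ → ℝ) (n : ℕ) (ha : ∀ i < n, a i < a (i + 1))
    (hb : ∀ i < n, b i < b (i + 1)) :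
    ∃ φ : ℝ → ℝ, Continuous φ ∧ StrictMono φ ∧ ∀ i ≤ n, φ (a i) = b i := by
  induction n with
  | zero =>
    refine ⟨fun s => s - a 0 + b 0, by fun_prop, fun s t h => by simpa using h, fun i hi => ?_⟩
    rw [Nat.le_zero.1 hi]
    simp
  | succ n ih =>
    obtain ⟨φ, h1, h2, h3⟩ := ih (fun i hi => ha i (by omega)) (fun i hi => hb i (by omega))
    have han := ha n (by omega)
    have hbn := hb n (by omega)
    set k : ℝ := (b (n + 1) - b n) / (a (n + 1) - a n) with hk
    have hk0 : 0 < k := div_pos (by linarith) (by linarith)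
    have hφn := h3 n le_rfl
    have hmono' : ∀ m ≤ n, ∀ i ≤ m, a i ≤ a m := by
      intro m
      induction m with
      | zero => intro _ i hi; rw [Nat.le_zero.1 hi]
      | succ m ih =>
        intro hm i hi
        rcases Nat.lt_or_ge m i with h | h
        · rw [show i = m + 1 by omega]
        · exact (ih (by omega) i h).trans (ha m (by omega)).le
    have hmono : ∀ i ≤ n, a i ≤ a n := hmono' n le_rfl
    refine ⟨fun s => if s ≤ a n then φ s else b n + (s - a n) * k, ?_, ?_, ?_⟩
    · refine Continuous.if_le h1 (by fun_prop) continuous_id continuous_const ?_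
      intro s hs
      rw [hs, hφn]
      simp
    · intro s t hst
      simp only
      split_ifs with hs ht ht
      · exact h2 hst
      · have h4 : φ s ≤ b n := by rw [← hφn]; exact h2.monotone hs
        have h5 : 0 < (t - a n) * k := mul_pos (by linarith) hk0
        linarith
      · exact absurd (hst.le.trans ht) hs
      · have h5 : 0 < (t - s) * k := mul_pos (by linarith) hk0
        linarith
    · intro i hi
      simp only
      rcases Nat.lt_or_ge n i with h | h
      · have hi' : i = n + 1 := by omega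
        subst hi'
        rw [if_neg (by linarith), hk, mul_div_cancel₀ _ (sub_pos.2 han).ne']
        ring
      · rw [if_pos (hmono i h), h3 i h]

/-- The homeomorphism which matches two words: version with functions. -/
theorem exists_homeo' {β : Type*} (O O' : ℝ → β) (a b : ℕ → ℝ) (n : ℕ)
    (ha : ∀ i < n, a i < a (i + 1)) (hb : ∀ i < n, b i < b (i + 1))
    (h : ∀ i ≤ n, O (a i) = O' (b i))
    (hc : ∀ i < n, ∀ s ∈ Ioo (a i) (a (i + 1)), ∀ s' ∈ Ioo (b i) (b (i + 1)), O s = O' s') :
    ∃ φ : ℝ → ℝ, Continuous φ ∧ StrictMono φ ∧ (∀ i ≤ n, φ (a i) = b i) ∧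
      ∀ s ∈ Icc (a 0) (a n), O s = O' (φ s) := by
  obtain ⟨φ, h1, h2, h3⟩ := exists_pl a b n ha hb
  refine ⟨φ, h1, h2, h3, ?_⟩
  have key : ∀ m ≤ n, ∀ s ∈ Icc (a 0) (a m), O s = O' (φ s) := by
    intro m
    induction m with
    | zero =>
      intro _ s hs
      have : s = a 0 := le_antisymm hs.2 hs.1
      rw [this, h3 0 (Nat.zero_le _)]
      exact h 0 (Nat.zero_le _)
    | succ m ih =>
      intro hm s hs
      rcases le_or_gt s (a m) with h4 | h4
      · exact ih (by omega) s ⟨hs.1, h4⟩
      · rcases eq_or_lt_of_le hs.2 with h5 | h5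
        · rw [h5, h3 _ hm]
          exact h _ hm
        · refine hc m (by omega) s ⟨h4, h5⟩ (φ s) ⟨?_, ?_⟩
          · rw [← h3 m (by omega)]; exact h2 h4
          · rw [← h3 (m + 1) hm]; exact h2 h5
  exact key n le_rfl

/-- The homeomorphism which matches two words. -/
theorem exists_homeo {β : Type*} (O O' : ℝ → β) (L L' : List ℝ) (hL : L.Pairwise (· < ·))
    (hL' : L'.Pairwise (· < ·)) (hlen : L.length = L'.length) (h0 : 0 < L.length)
    (hs : L[0] = 0) (hs' : L'[0] = 0) (he : L[L.length - 1] = 1)
    (he' : L'[L'.length - 1] = 1)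
    (h : ∀ (i : ℕ) (hi : i < L.length), O L[i] = O' (L'[i]'(hlen ▸ hi)))
    (hc : ∀ (i : ℕ) (hi : i + 1 < L.length), ∀ s ∈ Ioo L[i] L[i + 1],
      ∀ s' ∈ Ioo (L'[i]'(by omega)) (L'[i + 1]'(by omega)), O s = O' s') :
    ∃ φ : ℝ → ℝ, ContinuousOn φ (Icc 0 1) ∧ StrictMonoOn φ (Icc 0 1) ∧ φ 0 = 0 ∧ φ 1 = 1 ∧
      ∀ s ∈ Icc (0 : ℝ) 1, O s = O' (φ s) := by
  have e1 : ∀ (i : ℕ) (hi : i < L.length), L.getD i 0 = L[i] := fun i hi =>
    List.getD_eq_getElem _ _ hi
  have e2 : ∀ (i : ℕ) (hi : i < L'.length), L'.getD i 0 = L'[i] := fun i hi =>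
    List.getD_eq_getElem _ _ hi
  obtain ⟨φ, h1, h2, h3, h4⟩ := exists_homeo' O O' (fun i => L.getD i 0) (fun i => L'.getD i 0)
    (L.length - 1) (fun i hi => by
      rw [e1 i (by omega), e1 (i + 1) (by omega)]
      exact List.pairwise_iff_getElem.1 hL i (i + 1) _ _ (by omega)) (fun i hi => by
      rw [e2 i (by omega), e2 (i + 1) (by omega)]
      exact List.pairwise_iff_getElem.1 hL' i (i + 1) _ _ (by omega)) (fun i hi => by
      rw [e1 i (by omega), e2 i (by omega)]
      exact h i (by omega)) (fun i hi s hs s' hs' => by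
      rw [e1 i (by omega), e1 (i + 1) (by omega)] at hs
      rw [e2 i (by omega), e2 (i + 1) (by omega)] at hs'
      exact hc i (by omega) s hs s' hs')
  have a0 : φ 0 = 0 := by
    have := h3 0 (Nat.zero_le _)
    rwa [e1 0 h0, e2 0 (by omega), hs, hs'] at this
  have a1 : φ 1 = 1 := by
    have := h3 (L.length - 1) le_rfl
    rw [e1 _ (by omega), e2 _ (by omega), he] at this
    rw [this]
    simp only [hlen]
    exact he'
  rw [e1 0 h0, e1 _ (by omega), hs, he] at h4
  exact ⟨φ, h1.continuousOn, h2.strictMonoOn _, a0, a1, h4⟩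

end Pool.Agent.QC.Word
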