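import Pool.Agent.QC.Sign.Power

/-!
# Power sums of sums of roots, and the polynomial with given power sums
-/

namespace Pool.Agent.QC

open Polynomial

section Def

variable {R : Type*} [CommRing R]

/-- Power sums of the numbers `a_n b_n (z + w)`, `z`, `w` the roots of the polynomials with
coefficients `a`, `b`. -/
def sk (a b : ℕ → R) (n k : ℕ) : R :=
  ∑ m ∈ Finset.range (k + 1), (k.choose m : R) *
    ((b n ^ m * ps a n m) * (a n ^ (k - m) * ps b n (k - m)))

theorem map_sk {S : Type*} [CommRing S] (f : R →+* S) (a b : ℕ → R) (n k : ℕ) :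
    f (sk a b n k) = sk (fun i => f (a i)) (fun i => f (b i)) n k := by
  simp [sk, map_ps]

/-- `k!` times the elementary symmetric functions, out of the power sums `s 1, s 2, ...`. -/
def ex (s : ℕ → R) : ℕ → R
  | 0 => 1
  | k + 1 => ∑ i : Fin (k + 1), ((-1) ^ (i : ℕ) * (k.descFactorial i : R)) *
      (ex s (k - i) * s (i + 1))
termination_by k => k
decreasing_by omega

theorem ex_zero (s : ℕ → R) : ex s 0 = 1 := by rw [ex]

theorem ex_succ (s : ℕ → R) (k : ℕ) : ex s (k + 1) =
    ∑ i ∈ Finset.range (k + 1), ((-1) ^ i * (k.descFactorial i : R)) *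
      (ex s (k - i) * s (i + 1)) := by
  rw [ex, ← Fin.sum_univ_eq_sum_range (fun i => ((-1) ^ i * (k.descFactorial i : R)) *
      (ex s (k - i) * s (i + 1))) (k + 1)]

theorem map_ex {S : Type*} [CommRing S] (f : R →+* S) (s : ℕ → R) (k : ℕ) :
    f (ex s k) = ex (fun i => f (s i)) k := by
  induction k using Nat.strong_induction_on with
  | _ k ih =>
    cases k with
    | zero => simp [ex_zero]
    | succ k =>
      rw [ex_succ, ex_succ, map_sum]
      refine Finset.sum_congr rfl fun i hi => ?_
      rw [map_mul, map_mul, map_mul, map_pow, map_neg, map_one, map_natCast, ih (k - i) (by omega)]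

/-- `N!` times the monic polynomial of degree `N` whose roots have the power sums `s`. -/
noncomputable def xpoly (N : ℕ) (s : ℕ → R) : R[X] :=
  ∑ k ∈ Finset.range (N + 1),
    C (((-1) ^ k * (N.descFactorial (N - k) : R)) * ex s k) * X ^ (N - k)

theorem map_xpoly {S : Type*} [CommRing S] (f : R →+* S) (N : ℕ) (s : ℕ → R) :
    (xpoly N s).map f = xpoly N (fun i => f (s i)) := by
  rw [xpoly, xpoly, Polynomial.map_sum]
  refine Finset.sum_congr rfl fun k _ => ?_
  rw [Polynomial.map_mul, Polynomial.map_C, Polynomial.map_pow, Polynomial.map_X]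
  congr 2
  rw [map_mul f, map_mul f, map_pow f, map_neg f, map_one f, map_natCast f, map_ex]

end Def

theorem ps_eq_C (P : ℂ[X]) (k : ℕ) :
    ps P.coeff P.natDegree k = (P.roots.map (fun z => (P.leadingCoeff * z) ^ k)).sum := by
  set n := P.natDegree with hn
  set a : ℂ := P.leadingCoeff with ha
  have hcard : P.roots.card = n := by
    rw [hn, (IsAlgClosed.splits P).natDegree_eq_card_roots]
  obtain ⟨f, hf⟩ := exists_fin_map (n := n) (P.roots.map (fun z => a * z))
    (by rw [Multiset.card_map, hcard])
  have hsum : ∀ k, (P.roots.map (fun z => (a * z) ^ k)).sum = ∑ i, f i ^ k := by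
    intro k
    have h1 : P.roots.map (fun z => (a * z) ^ k) =
        (Finset.univ.val.map f).map (fun y => y ^ k) := by
      rw [hf, Multiset.map_map]; rfl
    rw [h1, Multiset.map_map]
    rfl
  have he : ∀ j, 1 ≤ j → ec P.coeff n j = (-1) ^ j * (Finset.univ.val.map f).esymm j := by
    intro j hj
    rw [hf, esymm_map_mul]
    by_cases hjn : j ≤ n
    · rw [ec, if_pos hjn]
      have hc := coeff_eq_esymm_roots_of_card (p := P) (k := n - j)
        (by rw [hcard]) (by omega)
      have h2 : n - (n - j) = j := by omega
      rw [← hn, h2] at hc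
      have h4 : P.coeff n = a := rfl
      rw [hc, h4]
      have h5 : a ^ j = a * a ^ (j - 1) := by
        rw [← pow_succ']; congr 1; omega
      rw [h5]; ring
    · rw [ec, if_neg hjn]
      have : P.roots.esymm j = 0 := by
        rw [Multiset.esymm, Multiset.powersetCard_eq_empty]
        · simp
        · rw [hcard]; omega
      rw [this]; simp
  rw [hsum]
  induction k using Nat.strong_induction_on with
  | _ k ih =>
    cases k with
    | zero => simp [ps_zero]
    | succ k =>
      rw [ps_succ, newton_multiset f k (fun j => ec P.coeff n j) he]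
      congr 2
      refine Finset.sum_congr rfl fun j hj => ?_
      rw [ih (k - j) (by omega)]

/-- The multiset of the numbers `a b (z + w)`. -/
noncomputable def sroots (P Q : ℂ[X]) : Multiset ℂ :=
  P.roots.bind fun z => Q.roots.map fun w => P.leadingCoeff * Q.leadingCoeff * (z + w)

theorem card_sroots (P Q : ℂ[X]) : (sroots P Q).card = P.natDegree * Q.natDegree := by
  rw [sroots, Multiset.card_bind]
  have h1 : P.roots.card = P.natDegree := ((IsAlgClosed.splits P).natDegree_eq_card_roots).symm
  have h2 : Q.roots.card = Q.natDegree := ((IsAlgClosed.splits Q).natDegree_eq_card_roots).symm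
  simp [h1, h2]

theorem sk_eq (P Q : ℂ[X]) (hQ : Q.natDegree = P.natDegree) (k : ℕ) :
    sk P.coeff Q.coeff P.natDegree k = ((sroots P Q).map (· ^ k)).sum := by
  have hP2 := ps_eq_C P
  have hQ2 := ps_eq_C Q
  rw [hQ] at hQ2
  have hlQ : Q.coeff P.natDegree = Q.leadingCoeff := by rw [← hQ]; rfl
  have hlP : P.coeff P.natDegree = P.leadingCoeff := rfl
  rw [sk, sroots, Multiset.map_bind, Multiset.sum_bind]
  simp only [Multiset.map_map, Function.comp_def]
  have h1 : ∀ z w : ℂ, (P.leadingCoeff * Q.leadingCoeff * (z + w)) ^ k =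
      ∑ m ∈ Finset.range (k + 1), (k.choose m : ℂ) *
        ((Q.leadingCoeff ^ m * (P.leadingCoeff * z) ^ m) *
          (P.leadingCoeff ^ (k - m) * (Q.leadingCoeff * w) ^ (k - m))) := by
    intro z w
    have : P.leadingCoeff * Q.leadingCoeff * (z + w) =
        Q.leadingCoeff * (P.leadingCoeff * z) + P.leadingCoeff * (Q.leadingCoeff * w) := by ring
    rw [this, add_pow]
    refine Finset.sum_congr rfl fun m _ => ?_
    rw [mul_pow, mul_pow]; ring
  simp_rw [h1, sum_map_finset_sum]
  refine Finset.sum_congr rfl fun m _ => ?_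
  rw [hP2, hQ2, hlQ, hlP]
  simp only [Multiset.sum_map_mul_left, Multiset.sum_map_mul_right]

/-- The recursion computes `k!` times the elementary symmetric functions. -/
theorem ex_eq (T : Multiset ℂ) (s : ℕ → ℂ) (hs : ∀ k, s k = (T.map (· ^ k)).sum) (k : ℕ) :
    ex s k = (k.factorial : ℂ) * T.esymm k := by
  obtain ⟨f, hf⟩ := exists_fin_map (n := T.card) T rfl
  have hsf : ∀ k, s k = ∑ i, f i ^ k := by
    intro k
    rw [hs]
    conv_lhs => rw [← hf]
    rw [Multiset.map_map]; rfl
  induction k using Nat.strong_induction_on with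
  | _ k ih =>
    cases k with
    | zero => simp [ex_zero, Multiset.esymm]
    | succ k =>
      have h := congrArg (MvPolynomial.aeval f)
        (MvPolynomial.mul_esymm_eq_sum (Fin T.card) ℂ (k + 1))
      have hps : ∀ j, MvPolynomial.aeval f (MvPolynomial.psum (Fin T.card) ℂ j) =
          ∑ i, f i ^ j := by
        intro j; simp [MvPolynomial.psum]
      rw [map_mul, map_natCast, MvPolynomial.aeval_esymm_eq_multiset_esymm, hf, map_mul, map_pow,
        map_neg, map_one, map_sum] at h
      rw [Nat.factorial_succ, Nat.cast_mul, mul_comm ((k + 1 : ℕ) : ℂ), mul_assoc, h, ex_succ,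
        Finset.mul_sum, Finset.mul_sum]
      refine Finset.sum_nbij' (fun i => (k - i, i + 1)) (fun a => a.2 - 1) ?_ ?_ ?_ ?_ ?_
      · intro i hi
        rw [Finset.mem_range] at hi
        rw [Finset.mem_filter, Finset.HasAntidiagonal.mem_antidiagonal]
        refine ⟨by simp only; omega, by simp only; omega⟩
      · intro a ha
        rw [Finset.mem_filter, Finset.HasAntidiagonal.mem_antidiagonal] at ha
        rw [Finset.mem_range]; omega
      · intro i hi; simp
      · intro a ha
        rw [Finset.mem_filter, Finset.HasAntidiagonal.mem_antidiagonal] at ha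
        ext <;> simp only <;> omega
      · intro i hi
        rw [Finset.mem_range] at hi
        simp only [map_mul, map_pow, map_neg, map_one,
          MvPolynomial.aeval_esymm_eq_multiset_esymm, hps, hf]
        rw [ih (k - i) (by omega), hsf]
        have h2 : (k.factorial : ℂ) = (k.descFactorial i : ℂ) * ((k - i).factorial : ℂ) := by
          rw [← Nat.factorial_mul_descFactorial (show i ≤ k by omega)]
          push_cast; ring
        have h3 : (-1 : ℂ) ^ (k + 1 + 1) * (-1) ^ (k - i) = (-1) ^ i := by
          have : k + 1 + 1 + (k - i) = i + 2 * (k - i + 1) := by omega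
          rw [← pow_add, this, pow_add, pow_mul]; simp
        rw [h2, ← h3]; ring

theorem xpoly_eq (T : Multiset ℂ) (s : ℕ → ℂ) (hs : ∀ k, s k = (T.map (· ^ k)).sum) :
    xpoly T.card s = C (T.card.factorial : ℂ) * (T.map fun t => X - C t).prod := by
  rw [Multiset.prod_X_sub_X_eq_sum_esymm, xpoly, Finset.mul_sum]
  refine Finset.sum_congr rfl fun k hk => ?_
  rw [Finset.mem_range] at hk
  rw [ex_eq T s hs]
  have h2 : (T.card.factorial : ℂ) = (T.card.descFactorial (T.card - k) : ℂ) * (k.factorial : ℂ) := by
    rw [← Nat.factorial_mul_descFactorial (show T.card - k ≤ T.card by omega)]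
    have : T.card - (T.card - k) = k := by omega
    rw [this]
    push_cast; ring
  rw [h2]
  simp only [map_mul, map_pow, map_neg, map_one]
  ring

end Pool.Agent.QC
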