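import Pool.Agent.QC.Sign.Calc
import Pool.Agent.QC.Word.Pow

/-!
# The number of distinct elements of a multiset, from its power sums
-/

namespace Pool.Agent.QC

open Polynomial Matrix

/-- The Hankel matrix of a sequence. -/
def hk {R : Type*} (N : ℕ) (s : ℕ → R) : Matrix (Fin N) (Fin N) R := Matrix.of fun i j => s (i + j)

theorem map_hk {R S : Type*} [CommRing R] [CommRing S] (f : R →+* S) (N : ℕ) (s : ℕ → R) :
    (hk N s).map f = hk N (fun i => f (s i)) := rfl

theorem natDegree_charpolyRev {n : ℕ} (H : Matrix (Fin n) (Fin n) ℝ) (hH : H.IsHermitian) :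
    H.charpolyRev.natDegree =
      H.charpoly.roots.countP (0 < ·) + H.charpoly.roots.countP (· < 0) := by
  rw [← Matrix.reverse_charpoly, reverse_natDegree, Matrix.charpoly_natDegree_eq_dim,
    Fintype.card_fin]
  have h4 : H.charpoly.roots.count 0 = H.charpoly.natTrailingDegree := by
    rw [count_roots, rootMultiplicity_eq_natTrailingDegree']
  have h5 : H.charpoly.roots.countP (0 < ·) + H.charpoly.roots.countP (· < 0) +
      H.charpoly.roots.count 0 = H.charpoly.roots.card := by
    generalize H.charpoly.roots = s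
    induction s using Multiset.induction_on with
    | empty => simp
    | cons a s ih =>
      rcases lt_trichotomy a 0 with h | h | h
      · have h6 : ¬ (0 < a) := h.le.not_gt
        simp only [Multiset.countP_cons, Multiset.count_cons, Multiset.card_cons, h, h6, h.ne',
          if_true, if_false]
        omega
      · subst h
        simp only [Multiset.countP_cons, Multiset.count_cons, Multiset.card_cons, lt_irrefl,
          if_true, if_false]
        omega
      · have h6 : ¬ (a < 0) := h.le.not_gt
        simp only [Multiset.countP_cons, Multiset.count_cons, Multiset.card_cons, h, h6, h.ne,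
          if_true, if_false]
        omega
  rw [roots_card_of_isHermitian H hH] at h5
  omega

/-- The number of distinct elements of a multiset closed under conjugation. -/
theorem card_toFinset_of_hankel (T : Multiset ℂ) (hT : T.map (starRingEnd ℂ) = T) {N : ℕ}
    (hN : T.card = N) (s : ℕ → ℝ) (hs : ∀ k, ((s k : ℝ) : ℂ) = (T.map (· ^ k)).sum) :
    (hk N s).charpolyRev.natDegree = T.toFinset.card := by
  classical
  have hcount : ∀ z, T.count ((starRingEnd ℂ) z) = T.count z := by
    intro z
    conv_lhs => rw [← hT]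
    exact Multiset.count_map_eq_count' _ _ (starRingEnd ℂ).injective _
  have hH : (hk N s).IsHermitian := by
    ext i j
    rw [conjTranspose_apply, star_trivial, hk, Matrix.of_apply, Matrix.of_apply, add_comm]
  set S : Finset ℂ := T.toFinset with hS
  have hSc : ∀ z ∈ S, (starRingEnd ℂ) z ∈ S := by
    intro z hz
    rw [hS, Multiset.mem_toFinset] at hz ⊢
    rw [← Multiset.count_pos] at hz ⊢
    rwa [hcount]
  have hScard : S.card ≤ N := by
    rw [← hN]
    exact Multiset.toFinset_card_le _
  have hinf : ({x : ℝ | (x : ℂ) ∉ S} : Set ℝ).Infinite := by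
    have hfin : ({x : ℝ | (x : ℂ) ∈ S} : Set ℝ).Finite :=
      Set.Finite.preimage (Complex.ofReal_injective.injOn) S.finite_toSet
    exact hfin.infinite_compl
  obtain ⟨U, hU, hUc⟩ := hinf.exists_subset_card_eq (N - S.card)
  have hinj : Function.Injective (fun x : ℝ => (x : ℂ)) := Complex.ofReal_injective
  have hdis : Disjoint S (U.image (fun x : ℝ => (x : ℂ))) := by
    rw [Finset.disjoint_right]
    intro z hz
    obtain ⟨x, hx, rfl⟩ := Finset.mem_image.1 hz
    exact hU hx
  set W : Finset ℂ := S ∪ U.image (fun x : ℝ => (x : ℂ)) with hW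
  have hWcard : W.card = N := by
    rw [hW, Finset.card_union_of_disjoint hdis, Finset.card_image_of_injective _ hinj, hUc]
    omega
  have hWc : ∀ z ∈ W, (starRingEnd ℂ) z ∈ W := by
    intro z hz
    rcases Finset.mem_union.1 hz with hz | hz
    · exact Finset.mem_union_left _ (hSc z hz)
    · obtain ⟨x, hx, rfl⟩ := Finset.mem_image.1 hz
      rw [Complex.conj_ofReal]
      exact Finset.mem_union_right _ (Finset.mem_image_of_mem _ hx)
  let g : ℂ → ℂ := fun z => (T.count z : ℂ)
  have hg : ∀ z, g ((starRingEnd ℂ) z) = (starRingEnd ℂ) (g z) := by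
    intro z
    simp only [g, hcount, map_natCast]
  have key := countP_of_conj (hk N s) hH W hWc hWcard 1 one_ne_zero g hg ?_
  · rw [natDegree_charpolyRev _ hH, key.2]
    congr 1
    ext z
    simp only [Finset.mem_filter, g]
    rw [Nat.cast_ne_zero, Multiset.count_ne_zero, hS, Multiset.mem_toFinset]
    constructor
    · rintro ⟨_, h⟩; exact h
    · intro h
      exact ⟨Finset.mem_union_left _ (Multiset.mem_toFinset.2 h), h⟩
  · intro i j
    rw [hk, Matrix.of_apply, hs, Finset.sum_multiset_map_count]
    have h4 : ∑ z ∈ W, g z * ((1 : ℝ) * z) ^ (i.1 + j.1) =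
        ∑ z ∈ S, g z * ((1 : ℝ) * z) ^ (i.1 + j.1) := by
      symm
      refine Finset.sum_subset Finset.subset_union_left ?_
      intro z _ hz
      have : T.count z = 0 := by
        rw [Multiset.count_eq_zero, ← Multiset.mem_toFinset]
        exact hz
      simp [g, this]
    rw [h4]
    refine Finset.sum_congr rfl fun z _ => ?_
    simp only [g, nsmul_eq_mul, Complex.ofReal_one, one_mul]

/-! ### Sums `z + conj w` -/

/-- The complex conjugate polynomial. -/
noncomputable def cjW (p : ℂ[X]) : ℂ[X] := p.map (starRingEnd ℂ)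

theorem natDegree_cjW (p : ℂ[X]) : (cjW p).natDegree = p.natDegree :=
  natDegree_map_eq_of_injective (starRingEnd ℂ).injective p

theorem leadingCoeff_cjW (p : ℂ[X]) : (cjW p).leadingCoeff = (starRingEnd ℂ) p.leadingCoeff :=
  leadingCoeff_map (starRingEnd ℂ)

theorem roots_cjW (p : ℂ[X]) : (cjW p).roots = p.roots.map (starRingEnd ℂ) := by
  have h1 := roots_map_of_injective_of_card_eq_natDegree (p := p)
      (f := starRingEnd ℂ) (starRingEnd ℂ).injective
      ((IsAlgClosed.splits p).natDegree_eq_card_roots).symm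
  exact h1.symm

theorem sroots_cjW (p : ℂ[X]) : (sroots p (cjW p)).map (starRingEnd ℂ) = sroots p (cjW p) := by
  rw [sroots, roots_cjW, Multiset.map_bind]
  simp only [Multiset.map_map, Function.comp_def]
  rw [Multiset.bind_map_comm]
  refine Multiset.bind_congr fun z _ => Multiset.map_congr rfl fun w _ => ?_
  simp only [map_mul, map_add, Complex.conj_conj, leadingCoeff_cjW]
  ring

/-- The power sums as real numbers. -/
noncomputable def SR (p : ℂ[X]) (k : ℕ) : ℝ := (sk p.coeff (cjW p).coeff p.natDegree k).re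

theorem SR_eq (p : ℂ[X]) (k : ℕ) :
    ((SR p k : ℝ) : ℂ) = ((sroots p (cjW p)).map (· ^ k)).sum := by
  rw [← sk_eq p (cjW p) (natDegree_cjW p) k, SR]
  have h1 := sk_eq p (cjW p) (natDegree_cjW p) k
  have h2 : (starRingEnd ℂ) (sk p.coeff (cjW p).coeff p.natDegree k) =
      sk p.coeff (cjW p).coeff p.natDegree k := by
    rw [h1, ← Multiset.sum_hom, Multiset.map_map]
    conv_rhs => rw [← sroots_cjW p]
    rw [Multiset.map_map]
    congr 1
    refine Multiset.map_congr rfl fun z _ => ?_
    simp
  exact Complex.conj_eq_iff_re.1 h2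

theorem card_sroots_cjW (p : ℂ[X]) : (sroots p (cjW p)).card = p.natDegree ^ 2 := by
  rw [card_sroots, natDegree_cjW, pow_two]

/-- The number of distinct sums. -/
theorem natDegree_hk_SR (p : ℂ[X]) :
    (hk (p.natDegree ^ 2) (SR p)).charpolyRev.natDegree = (sroots p (cjW p)).toFinset.card :=
  card_toFinset_of_hankel _ (sroots_cjW p) (card_sroots_cjW p) _ (SR_eq p)

/-- The real polynomial whose roots are the numbers `|a|^2 (z + conj w)`. -/
noncomputable def XR (p : ℂ[X]) : ℝ[X] := xpoly (p.natDegree ^ 2) (SR p)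

theorem map_XR (p : ℂ[X]) : (XR p).map (algebraMap ℝ ℂ) =
    C ((p.natDegree ^ 2).factorial : ℂ) * ((sroots p (cjW p)).map fun t => X - C t).prod := by
  have h := xpoly_eq (sroots p (cjW p)) (fun k => ((SR p k : ℝ) : ℂ)) (SR_eq p)
  rw [card_sroots_cjW] at h
  rw [XR, map_xpoly]
  exact h

theorem XR_ne_zero (p : ℂ[X]) : XR p ≠ 0 := by
  intro h
  have h1 := map_XR p
  rw [h, Polynomial.map_zero] at h1
  have h2 : C ((p.natDegree ^ 2).factorial : ℂ) ≠ 0 := by
    rw [Ne, C_eq_zero]
    exact_mod_cast Nat.factorial_ne_zero _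
  have h3 : ((sroots p (cjW p)).map fun t => X - C t).prod ≠ 0 := by
    rw [Ne, Multiset.prod_eq_zero_iff]
    intro hm
    obtain ⟨t, _, ht⟩ := Multiset.mem_map.1 hm
    exact X_sub_C_ne_zero t ht
  exact (mul_ne_zero h2 h3) h1.symm

/-- Twice the real parts of the roots, times `|a|^2`, are real roots of `XR p`. -/
theorem mem_rootList_XR {p : ℂ[X]} {z : ℂ} (hz : z ∈ p.roots) :
    2 * Complex.normSq p.leadingCoeff * z.re ∈ rootList (XR p) := by
  rw [mem_rootList (XR_ne_zero p)]
  have h1 : (((2 * Complex.normSq p.leadingCoeff * z.re : ℝ)) : ℂ) ∈ sroots p (cjW p) := by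
    rw [sroots, Multiset.mem_bind]
    refine ⟨z, hz, Multiset.mem_map.2 ⟨(starRingEnd ℂ) z, ?_, ?_⟩⟩
    · rw [roots_cjW]; exact Multiset.mem_map_of_mem _ hz
    · rw [leadingCoeff_cjW, Complex.mul_conj, Complex.add_conj]
      push_cast; ring
  have h2 : ((XR p).map (algebraMap ℝ ℂ)).eval
      (((2 * Complex.normSq p.leadingCoeff * z.re : ℝ)) : ℂ) = 0 := by
    rw [map_XR, eval_mul, eval_multiset_prod, Multiset.prod_eq_zero, mul_zero]
    rw [Multiset.map_map, Multiset.mem_map]
    exact ⟨_, h1, by simp⟩
  rw [eval_map, ← Complex.coe_algebraMap, eval₂_at_apply] at h2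
  exact (map_eq_zero (algebraMap ℝ ℂ)).1 h2

end Pool.Agent.QC
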