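import Pool.Agent.QC.EasyFun
import Pool.Agent.QC.Word.Pow
import Pool.Agent.QC.Word.Hank

/-!
# Families: power sums, elementary symmetric functions, Hankel matrices
-/

namespace Pool.Agent.QC

open MvPolynomial

/-- Finitely many constants are free. -/
theorem Calc.consts {σ : Type*} {M : ℕ} {K : Set (MvPolynomial σ ℤ)} {ι : Type*} (s : Finset ι)
    (c : ι → ℤ) : Calc M 0 K ((fun i => (C (c i) : MvPolynomial σ ℤ)) '' s) := by
  have := Calc.biUnion (M := M) (K := K) (c := 0) s (p := fun i => C (c i))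
    fun i _ => Calc.const (c i)
  simpa using this

lemma ps_congr {R : Type*} [CommRing R] {a b : ℕ → R} {n : ℕ} (h : ∀ i ≤ n, a i = b i) (k : ℕ) :
    ps a n k = ps b n k := by
  have he : ∀ j, ec a n j = ec b n j := by
    intro j
    rw [ec, ec]
    split_ifs
    · rw [h _ (Nat.sub_le _ _), h n le_rfl]
    · rfl
  induction k using Nat.strong_induction_on with
  | _ k ih =>
    cases k with
    | zero => rw [ps_zero, ps_zero]
    | succ k =>
      rw [ps_succ, ps_succ, he]
      congr 2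
      refine Finset.sum_congr rfl fun j hj => ?_
      rw [he, ih (k - j) (by omega)]

section Ex

variable {σ : Type*} {s : ℕ → MvPolynomial σ ℤ} {m K : ℕ}

lemma totalDegree_intC_mul {σ : Type*} (c : ℤ) (p : MvPolynomial σ ℤ) :
    (C c * p).totalDegree ≤ p.totalDegree := by
  refine (totalDegree_mul _ _).trans ?_
  rw [totalDegree_C, zero_add]

lemma exC {σ : Type*} (k i : ℕ) : ((-1) ^ i * (k.descFactorial i : MvPolynomial σ ℤ)) =
    C ((-1) ^ i * (k.descFactorial i : ℤ)) := by simp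

theorem totalDegree_ex (hs : ∀ i ≤ K, (s i).totalDegree ≤ m) (k : ℕ) (hk : k ≤ K) :
    (ex s k).totalDegree ≤ k * m := by
  induction k using Nat.strong_induction_on with
  | _ k ih =>
    cases k with
    | zero => rw [ex_zero]; simp
    | succ k =>
      rw [ex_succ]
      refine totalDegree_finsetSum_le fun i hi => ?_
      have hi' := Finset.mem_range.1 hi
      rw [exC]
      refine (totalDegree_intC_mul _ _).trans ((totalDegree_mul _ _).trans ?_)
      have h1 := ih (k - i) (by omega) (by omega)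
      have h2 := hs (i + 1) (by omega)
      calc _ ≤ (k - i) * m + m := add_le_add h1 h2
        _ = (k - i + 1) * m := by ring
        _ ≤ (k + 1) * m := Nat.mul_le_mul_right _ (by omega)

theorem Calc.ex {M : ℕ} {K₀ : Set (MvPolynomial σ ℤ)} (hsK : ∀ i ≤ K, s i ∈ K₀)
    (hs : ∀ i ≤ K, (s i).totalDegree ≤ m) (hM : K * m ≤ M) :
    Calc M ((K + 1) * (3 * K)) K₀ {q | ∃ k < K + 1, q = QC.ex s k} := by
  refine Calc.iter' (K + 1) fun k hk => ?_
  cases k with
  | zero =>
    rw [ex_zero]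
    refine ((Calc.const (M := M) 1).mono_c (by omega)).mono_P ?_
    simp
  | succ k =>
    set K' := K₀ ∪ {q | ∃ j < k + 1, q = QC.ex s j} with hK'
    have hd : ∀ i < k + 1, (QC.ex s (k - i) * s (i + 1)).totalDegree ≤ M := by
      intro i hi
      refine (totalDegree_mul _ _).trans ?_
      have h1 := totalDegree_ex hs (k - i) (by omega)
      have h2 := hs (i + 1) (by omega)
      calc _ ≤ (k - i) * m + m := add_le_add h1 h2
        _ = (k - i + 1) * m := by ring
        _ ≤ K * m := Nat.mul_le_mul_right _ (by omega)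
        _ ≤ M := hM
    have c1 : Calc M ((Finset.range (k + 1)).card * 1) K'
        ((fun i => QC.ex s (k - i) * s (i + 1)) '' (Finset.range (k + 1) : Finset ℕ)) := by
      refine Calc.biUnion _ fun i hi => ?_
      have hi' := Finset.mem_range.1 hi
      exact Calc.mul (Or.inr ⟨k - i, by omega, rfl⟩) (Or.inl (hsK _ (by omega))) (hd i hi')
    have c2 := c1.union (Calc.consts (M := M) (K := K') (Finset.range (k + 1))
      (fun i => (-1) ^ i * (k.descFactorial i : ℤ)))
    have c3 : Calc M (2 * (Finset.range (k + 1)).card)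
        (K' ∪ (((fun i => QC.ex s (k - i) * s (i + 1)) '' (Finset.range (k + 1) : Finset ℕ)) ∪
          ((fun i => (C ((-1) ^ i * (k.descFactorial i : ℤ)) : MvPolynomial σ ℤ)) ''
            (Finset.range (k + 1) : Finset ℕ)))) {QC.ex s (k + 1)} := by
      have := Calc.dot (M := M) (K := K' ∪
          (((fun i => QC.ex s (k - i) * s (i + 1)) '' (Finset.range (k + 1) : Finset ℕ)) ∪
          ((fun i => (C ((-1) ^ i * (k.descFactorial i : ℤ)) : MvPolynomial σ ℤ)) ''
            (Finset.range (k + 1) : Finset ℕ)))) (Finset.range (k + 1))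
        (f := fun i => C ((-1) ^ i * (k.descFactorial i : ℤ)))
        (g := fun i => QC.ex s (k - i) * s (i + 1))
        (fun i hi => Or.inr (Or.inr ⟨i, Finset.mem_coe.2 hi, rfl⟩))
        (fun i hi => Or.inr (Or.inl ⟨i, Finset.mem_coe.2 hi, rfl⟩))
        (fun i hi => (totalDegree_intC_mul _ _).trans (hd i (Finset.mem_range.1 hi)))
      rw [ex_succ]
      simpa only [exC] using this
    refine (c2.trans' c3).mono_c ?_
    rw [Finset.card_range]
    omega

end Ex

lemma coeff_xpoly {R : Type*} [CommRing R] (N : ℕ) (s : ℕ → R) (j : ℕ) :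
    (xpoly N s).coeff j = if j ≤ N then ((-1) ^ (N - j) * (N.descFactorial j : R)) * ex s (N - j)
      else 0 := by
  rw [xpoly, Polynomial.finsetSum_coeff]
  split_ifs with hj
  · rw [Finset.sum_eq_single (N - j)]
    · rw [Polynomial.coeff_C_mul, Polynomial.coeff_X_pow, if_pos (by omega), mul_one,
        Nat.sub_sub_self hj]
    · intro k hk hkj
      have hk' := Finset.mem_range.1 hk
      rw [Polynomial.coeff_C_mul, Polynomial.coeff_X_pow, if_neg (by omega), mul_zero]
    · intro h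
      exact absurd (Finset.mem_range.2 (by omega)) h
  · refine Finset.sum_eq_zero fun k hk => ?_
    have hk' := Finset.mem_range.1 hk
    rw [Polynomial.coeff_C_mul, Polynomial.coeff_X_pow, if_neg (by omega), mul_zero]

lemma natDegree_xpoly_le {R : Type*} [CommRing R] (N : ℕ) (s : ℕ → R) :
    (xpoly N s).natDegree ≤ N := by
  refine Polynomial.natDegree_le_iff_coeff_eq_zero.2 fun j hj => ?_
  rw [coeff_xpoly, if_neg (by omega)]

variable {ι ι' : Type*} {L : ι → ℕ} {σ : ι → Type*}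

namespace EasyP

/-- A member of a family indexed by `0, ..., K`, reindexed. -/
theorem of_Iic {f : ∀ i, ℕ → MvPolynomial (σ i) ℤ} {K : ι → ℕ}
    (h : EasyP L (fun i => f i '' Set.Iic (K i))) (g : ι' → ι) (k : ι' → ℕ)
    (hk : ∀ j, k j ≤ K (g j)) :
    EasyP (fun j => L (g j)) (σ := fun j => σ (g j)) (fun j => {f (g j) (k j)}) :=
  (h.comap g).mono fun j => by
    rintro _ rfl
    exact ⟨k j, Set.mem_Iic.2 (hk j), rfl⟩

/-- A family indexed by `0, ..., K` out of uniformly easy members. -/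
theorem to_Iic {f : ∀ i, ℕ → MvPolynomial (σ i) ℤ} {K : ι → ℕ} (hK : Bd L K)
    (h : EasyP (fun p : Σ i, Fin (K i + 1) => L p.1) (σ := fun p => σ p.1)
      (fun p => {f p.1 p.2})) : EasyP L (fun i => f i '' Set.Iic (K i)) := by
  refine (EasyP.range (κ := fun i => Fin (K i + 1)) (f := fun i j => f i j)
    ((hK.add (Bd.const 1)).mono fun i => by rw [Fintype.card_fin]) h).mono fun i => ?_
  rintro _ ⟨k, hk, rfl⟩
  exact ⟨⟨k, Nat.lt_succ_of_le hk⟩, rfl⟩

variable {a b s : ∀ i, ℕ → MvPolynomial (σ i) ℤ} {n K N : ι → ℕ}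

/-- (E1) -/
theorem ps (_hn : Bd L n) (hK : Bd L K) (ha : EasyP L (fun i => a i '' Set.Iic (n i))) :
    EasyP L (fun i => QC.ps (a i) (n i) '' Set.Iic (K i)) := by
  have hcong : ∀ i k, QC.ps (a i) (n i) k =
      QC.ps (fun j => if j ≤ n i then a i j else 0) (n i) k := fun i k =>
    ps_congr (fun j hj => by simp only [if_pos hj]) k
  refine ha.chain fun m hm _ h2 => ⟨fun i => K i * m i,
    fun i => 2 * K i + 1 + (K i + 1) * (2 * K i + 3), hK.mul hm,
    (((Bd.const 2).mul hK).add (Bd.const 1)).add ((hK.add (Bd.const 1)).mul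
      (((Bd.const 2).mul hK).add (Bd.const 3))), fun i => ?_, ?_⟩
  · have hd : ∀ j, (if j ≤ n i then a i j else 0 : MvPolynomial (σ i) ℤ).totalDegree ≤ m i := by
      intro j
      split_ifs with hj
      · exact h2 i _ ⟨j, Set.mem_Iic.2 hj, rfl⟩
      · simp
    refine (Calc.ps (m := m i) (n := n i) (N := K i)
      (a := fun j => if j ≤ n i then a i j else 0) (fun j hj => ?_) hd le_rfl).mono_P ?_
    · simp only [if_pos hj]
      exact Or.inr ⟨j, Set.mem_Iic.2 hj, rfl⟩
    · rintro _ ⟨k, hk, rfl⟩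
      exact ⟨k, Nat.lt_succ_of_le hk, hcong i k⟩
  · rintro i _ ⟨k, hk, rfl⟩
    rw [hcong]
    refine (totalDegree_ps (m := m i) (fun j => ?_) _ _).trans (Nat.mul_le_mul_right _ hk)
    split_ifs with hj
    · exact h2 i _ ⟨j, Set.mem_Iic.2 hj, rfl⟩
    · simp

/-- (E2) -/
theorem sk (hn : Bd L n) (hK : Bd L K) (ha : EasyP L (fun i => a i '' Set.Iic (n i)))
    (hb : EasyP L (fun i => b i '' Set.Iic (n i))) :
    EasyP L (fun i => QC.sk (a i) (b i) (n i) '' Set.Iic (K i)) := by
  have hpa := EasyP.ps hn hK ha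
  have hpb := EasyP.ps hn hK hb
  refine to_Iic hK ?_
  have hsum := EasyP.sum (ι := Σ i, Fin (K i + 1)) (L := fun p => L p.1) (σ := fun p => σ p.1)
    (κ := fun p => Fin (p.2 + 1))
    (f := fun p m => (((p.2 : ℕ).choose m : ℕ) : MvPolynomial (σ p.1) ℤ) *
      ((b p.1 (n p.1) ^ (m : ℕ) * QC.ps (a p.1) (n p.1) m) *
        (a p.1 (n p.1) ^ ((p.2 : ℕ) - m) * QC.ps (b p.1) (n p.1) (p.2 - m)))) ?_ ?_
  · refine hsum.mono fun p => ?_
    rintro _ rfl
    rw [Set.mem_singleton_iff, QC.sk, ← Fin.sum_univ_eq_sum_range (fun m =>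
      (((p.2 : ℕ).choose m : ℕ) : MvPolynomial (σ p.1) ℤ) *
      ((b p.1 (n p.1) ^ m * QC.ps (a p.1) (n p.1) m) *
        (a p.1 (n p.1) ^ ((p.2 : ℕ) - m) * QC.ps (b p.1) (n p.1) (p.2 - m)))) ((p.2 : ℕ) + 1)]
  · refine ((hK.comap Sigma.fst).add (Bd.const 1)).mono fun p => ?_
    rw [Fintype.card_fin]
    have := p.2.2
    omega
  · refine EasyP.range ?_ ?_
    · refine ((hK.comap Sigma.fst).add (Bd.const 1)).mono fun p => ?_
      rw [Fintype.card_fin]
      have := p.2.2
      omega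
    · have hmK : ∀ q : Σ p : (Σ i, Fin (K i + 1)), Fin ((p.2 : ℕ) + 1),
          (q.2 : ℕ) ≤ K q.1.1 := fun q => by
        have h1 := q.2.2
        have h2 := q.1.2.2
        omega
      have hmK' : ∀ q : Σ p : (Σ i, Fin (K i + 1)), Fin ((p.2 : ℕ) + 1),
          (q.1.2 : ℕ) - q.2 ≤ K q.1.1 := fun q => by
        have h2 := q.1.2.2
        omega
      have hKq : Bd (fun q : Σ p : (Σ i, Fin (K i + 1)), Fin ((p.2 : ℕ) + 1) => L q.1.1)
          (fun q => K q.1.1) :=
        hK.comap (fun q : Σ p : (Σ i, Fin (K i + 1)), Fin ((p.2 : ℕ) + 1) => q.1.1)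
      have h1 := hpa.of_Iic (fun q : Σ p : (Σ i, Fin (K i + 1)), Fin ((p.2 : ℕ) + 1) => q.1.1)
        (fun q => (q.2 : ℕ)) hmK
      have h2 := hpb.of_Iic (fun q : Σ p : (Σ i, Fin (K i + 1)), Fin ((p.2 : ℕ) + 1) => q.1.1)
        (fun q => (q.1.2 : ℕ) - q.2) hmK'
      have h3 := (hb.of_Iic (fun q : Σ p : (Σ i, Fin (K i + 1)), Fin ((p.2 : ℕ) + 1) => q.1.1)
        (fun q => n q.1.1) fun _ => le_rfl).pow (k := fun q => (q.2 : ℕ)) (hKq.mono hmK)
      have h4 := (ha.of_Iic (fun q : Σ p : (Σ i, Fin (K i + 1)), Fin ((p.2 : ℕ) + 1) => q.1.1)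
        (fun q => n q.1.1) fun _ => le_rfl).pow (k := fun q => (q.1.2 : ℕ) - q.2)
        (hKq.mono hmK')
      have h5 := EasyP.const
        (L := fun q : Σ p : (Σ i, Fin (K i + 1)), Fin ((p.2 : ℕ) + 1) => L q.1.1)
        (σ := fun q => σ q.1.1) (fun q => (((q.1.2 : ℕ).choose q.2 : ℕ) : ℤ))
      refine (h5.mul ((h3.mul h1).mul (h4.mul h2))).mono fun q => ?_
      rintro _ rfl
      rw [Set.mem_singleton_iff]
      congr 1

/-- (E3), elementary symmetric functions -/
theorem ex (hK : Bd L K) (hs : EasyP L (fun i => s i '' Set.Iic (K i))) :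
    EasyP L (fun i => QC.ex (s i) '' Set.Iic (K i)) := by
  refine hs.chain fun m hm _ h2 => ⟨fun i => K i * m i,
    fun i => (K i + 1) * (3 * K i), hK.mul hm,
    (hK.add (Bd.const 1)).mul ((Bd.const 3).mul hK), fun i => ?_, ?_⟩
  · refine (Calc.ex (m := m i) (K := K i) (s := s i)
      (fun j hj => Or.inr ⟨j, Set.mem_Iic.2 hj, rfl⟩)
      (fun j hj => h2 i _ ⟨j, Set.mem_Iic.2 hj, rfl⟩) le_rfl).mono_P ?_
    rintro _ ⟨k, hk, rfl⟩
    exact ⟨k, Nat.lt_succ_of_le hk, rfl⟩
  · rintro i _ ⟨k, hk, rfl⟩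
    exact (totalDegree_ex (fun j hj => h2 i _ ⟨j, Set.mem_Iic.2 hj, rfl⟩) k hk).trans
      (Nat.mul_le_mul_right _ hk)

/-- (E3), the polynomial -/
theorem xpoly (hN : Bd L N) (hs : EasyP L (fun i => s i '' Set.Iic (N i))) :
    EasyP L (fun i => Set.range (QC.xpoly (N i) (s i)).coeff) := by
  have hex := EasyP.ex hN hs
  have h1 : EasyP L (fun i => (fun j => (C ((-1) ^ (N i - j) * ((N i).descFactorial j : ℤ)) :
      MvPolynomial (σ i) ℤ) * QC.ex (s i) (N i - j)) '' Set.Iic (N i)) := by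
    refine to_Iic hN ?_
    have h2 := hex.of_Iic (fun p : Σ i, Fin (N i + 1) => p.1) (fun p => N p.1 - p.2)
      fun p => Nat.sub_le _ _
    exact (EasyP.const (L := fun p : Σ i, Fin (N i + 1) => L p.1) (σ := fun p => σ p.1)
      (fun p => (-1) ^ (N p.1 - p.2) * ((N p.1).descFactorial p.2 : ℤ))).mul h2
  refine h1.zero_one.mono fun i => ?_
  rintro _ ⟨j, rfl⟩
  rw [coeff_xpoly]
  split_ifs with hj
  · refine Or.inl ⟨j, Set.mem_Iic.2 hj, ?_⟩
    simp
  · exact Or.inr (Or.inl rfl)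

/-- (E4) -/
theorem hk (hN : Bd L N) (hs : EasyP L (fun i => s i '' Set.Iic (2 * N i))) :
    EasyP L (fun i => Set.range (QC.hk (N i) (s i)).charpolyRev.coeff) := by
  have h1 : EasyP L (fun i => {q | ∃ r t : Fin (N i), q = QC.hk (N i) (s i) r t}) :=
    hs.mono fun i => by
      rintro _ ⟨r, t, rfl⟩
      exact ⟨r + t, Set.mem_Iic.2 (by omega), rfl⟩
  have h2 := (EasyP.charpoly (κ := fun i => Fin (N i)) (A := fun i => QC.hk (N i) (s i))
    (hN.mono fun i => by rw [Fintype.card_fin]) h1).zero_one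
  refine h2.mono fun i => ?_
  rintro _ ⟨j, rfl⟩
  by_cases hj : j ≤ N i
  · rw [charpolyRev_coeff _ hj]
    exact Or.inl ⟨_, rfl⟩
  · have h3 : (QC.hk (N i) (s i)).charpolyRev.natDegree ≤ N i := by
      rw [← Matrix.reverse_charpoly]
      refine (Polynomial.reverse_natDegree_le _).trans ?_
      rw [Matrix.charpoly_natDegree_eq_dim, Fintype.card_fin]
    rw [Polynomial.coeff_eq_zero_of_natDegree_lt (by omega)]
    exact Or.inr (Or.inl rfl)

end EasyP

end Pool.Agent.QC
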