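import Pool.Agent.QC.EasyCplx
import Pool.Agent.QC.Word.EasyPow

/-!
# Complex polynomials with given real and imaginary parts of the coefficients; their power sums
-/

namespace Pool.Agent.QC

open MvPolynomial

section Def

variable {σ : Type*}

/-- The complex polynomial with coefficients `a k (x) + i b k (x)`, `k ≤ n`. -/
noncomputable def cp (a b : ℕ → MvPolynomial σ ℤ) (n : ℕ) (x : σ → ℝ) : Polynomial ℂ :=
  ∑ k ∈ Finset.range (n + 1),
    Polynomial.C ((ev x (a k) : ℂ) + (ev x (b k) : ℂ) * Complex.I) * Polynomial.X ^ k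

theorem cp_coeff (a b : ℕ → MvPolynomial σ ℤ) (n : ℕ) (x : σ → ℝ) (k : ℕ) :
    (cp a b n x).coeff k =
      if k ≤ n then (ev x (a k) : ℂ) + (ev x (b k) : ℂ) * Complex.I else 0 := by
  rw [cp, Polynomial.finsetSum_coeff]
  simp only [Polynomial.coeff_C_mul, Polynomial.coeff_X_pow, mul_ite, mul_one, mul_zero]
  rw [Finset.sum_ite_eq]
  simp only [Finset.mem_range, Nat.lt_succ_iff]

theorem natDegree_cp_le (a b : ℕ → MvPolynomial σ ℤ) (n : ℕ) (x : σ → ℝ) :
    (cp a b n x).natDegree ≤ n := by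
  refine Polynomial.natDegree_sum_le_of_forall_le _ _ fun k hk => ?_
  refine (Polynomial.natDegree_C_mul_X_pow_le _ _).trans ?_
  rw [Finset.mem_range] at hk
  omega

/-- The coefficients with a formal imaginary unit. -/
noncomputable def fa (a b : ℕ → MvPolynomial σ ℤ) (n k : ℕ) : MvPolynomial (Option σ) ℤ :=
  if k ≤ n then rename some (a k) + X none * rename some (b k) else 0

/-- The conjugate coefficients. -/
noncomputable def fb (a b : ℕ → MvPolynomial σ ℤ) (n k : ℕ) : MvPolynomial (Option σ) ℤ :=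
  if k ≤ n then rename some (a k) - X none * rename some (b k) else 0

theorem cev_rename_some (x : σ → ℝ) (p : MvPolynomial σ ℤ) :
    cev (ptI x) (rename some p) = (ev x p : ℂ) := by
  rw [cev, aeval_rename]
  induction p using MvPolynomial.induction_on with
  | C a => simp
  | add p q hp hq => rw [map_add, hp, hq, ev_add]; push_cast; ring
  | mul_X p i hp => rw [map_mul, hp, ev_mul, aeval_X, ev_X]; push_cast; rfl

theorem cev_X_none (x : σ → ℝ) : cev (ptI x) (X none) = Complex.I := by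
  rw [cev, aeval_X]; rfl

theorem cev_fa (a b : ℕ → MvPolynomial σ ℤ) (n : ℕ) (x : σ → ℝ) (k : ℕ) :
    cev (ptI x) (fa a b n k) = (cp a b n x).coeff k := by
  rw [cp_coeff, fa]
  split_ifs
  · have h1 := cev_rename_some x (a k)
    have h2 := cev_rename_some x (b k)
    have h3 := cev_X_none x
    unfold cev at h1 h2 h3 ⊢
    rw [map_add, map_mul, h1, h2, h3, mul_comm Complex.I]
  · unfold cev; rw [map_zero]

theorem cev_fb (a b : ℕ → MvPolynomial σ ℤ) (n : ℕ) (x : σ → ℝ) (k : ℕ) :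
    cev (ptI x) (fb a b n k) = (cjW (cp a b n x)).coeff k := by
  rw [cjW, Polynomial.coeff_map, cp_coeff, fb]
  split_ifs
  · have h1 := cev_rename_some x (a k)
    have h2 := cev_rename_some x (b k)
    have h3 := cev_X_none x
    unfold cev at h1 h2 h3 ⊢
    rw [map_sub, map_mul, h1, h2, h3, map_add, map_mul, Complex.conj_ofReal, Complex.conj_ofReal,
      Complex.conj_I]
    ring
  · unfold cev; rw [map_zero, map_zero]

/-- The polynomial `p (i Z)`. -/
noncomputable def rot (p : Polynomial ℂ) : Polynomial ℂ :=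
  p.comp (Polynomial.C Complex.I * Polynomial.X)

theorem rot_coeff (p : Polynomial ℂ) (k : ℕ) : (rot p).coeff k = p.coeff k * Complex.I ^ k := by
  rw [rot, Polynomial.comp_C_mul_X_coeff]

theorem natDegree_rot (p : Polynomial ℂ) : (rot p).natDegree = p.natDegree := by
  rw [rot, Polynomial.natDegree_comp, Polynomial.natDegree_C_mul_X _ Complex.I_ne_zero, mul_one]

theorem cev_rfa (a b : ℕ → MvPolynomial σ ℤ) (n : ℕ) (x : σ → ℝ) (k : ℕ) :
    cev (ptI x) (X none ^ k * fa a b n k) = (rot (cp a b n x)).coeff k := by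
  have h1 := cev_fa a b n x k
  have h3 := cev_X_none x
  unfold cev at h1 h3 ⊢
  rw [rot_coeff, map_mul, map_pow, h1, h3, mul_comm]

theorem cev_rfb (a b : ℕ → MvPolynomial σ ℤ) (n : ℕ) (x : σ → ℝ) (k : ℕ) :
    cev (ptI x) ((-X none) ^ k * fb a b n k) = (cjW (rot (cp a b n x))).coeff k := by
  have h1 := cev_fb a b n x k
  have h3 := cev_X_none x
  rw [cjW, Polynomial.coeff_map] at h1 ⊢
  unfold cev at h1 h3 ⊢
  rw [rot_coeff, map_mul, map_pow, map_neg, h1, h3, map_mul, map_pow, Complex.conj_I, mul_comm]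

end Def

section Easy

variable {ι : Type*} {L : ι → ℕ} {σ : ι → Type*} {n : ι → ℕ}
  {a b : ∀ i, ℕ → MvPolynomial (σ i) ℤ}

theorem EasyP.iic_of {f : ∀ i, ℕ → MvPolynomial (σ i) ℤ} {n : ι → ℕ} (hn : Bd L n)
    (h : EasyP (fun p : Σ i, Fin (n i + 1) => L p.1) (σ := fun p => σ p.1)
      (fun p => {f p.1 (p.2 : ℕ)})) : EasyP L (fun i => f i '' Set.Iic (n i)) := by
  have h1 := EasyP.range (κ := fun i => Fin (n i + 1)) (f := fun i (k : Fin (n i + 1)) => f i k)
    (by simpa using hn.add (Bd.const 1)) h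
  refine h1.mono fun i => ?_
  rintro _ ⟨k, hk, rfl⟩
  exact ⟨⟨k, Nat.lt_succ_of_le hk⟩, rfl⟩

theorem EasyP.of_iic {f : ∀ i, ℕ → MvPolynomial (σ i) ℤ} {n : ι → ℕ}
    (h : EasyP L (fun i => f i '' Set.Iic (n i))) :
    EasyP (fun p : Σ i, Fin (n i + 1) => L p.1) (σ := fun p => σ p.1)
      (fun p => {f p.1 (p.2 : ℕ)}) := by
  refine EasyP.of_range (κ := fun i => Fin (n i + 1)) (f := fun i (k : Fin (n i + 1)) => f i k)
    (h.mono fun i => ?_)
  rintro _ ⟨k, rfl⟩
  exact ⟨k, Set.mem_Iic.2 (Nat.lt_succ_iff.1 k.2), rfl⟩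

theorem EasyP.rename1 {τ : ι → Type*} {p : ∀ i, MvPolynomial (σ i) ℤ} (g : ∀ i, σ i → τ i)
    (h : EasyP L (fun i => {p i})) : EasyP L (fun i => {MvPolynomial.rename (g i) (p i)}) :=
  (h.rename g).mono fun i => by rintro _ rfl; exact ⟨p i, rfl, rfl⟩

theorem EasyP.var1 (f : ∀ i, σ i) : EasyP L (fun i => {(X (f i) : MvPolynomial (σ i) ℤ)}) :=
  (EasyP.vars (L := L) (σ := σ)).of_mem fun i => ⟨f i, rfl⟩

theorem EasyP.fa (hn : Bd L n) (ha : EasyP L (fun i => a i '' Set.Iic (n i)))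
    (hb : EasyP L (fun i => b i '' Set.Iic (n i))) :
    EasyP L (σ := fun i => Option (σ i)) (fun i => QC.fa (a i) (b i) (n i) '' Set.Iic (n i)) := by
  refine EasyP.iic_of hn ?_
  have h1 := (ha.of_iic.rename1 (τ := fun p : Σ i, Fin (n i + 1) => Option (σ p.1))
      (fun p => some)).add ((EasyP.var1 (fun p : Σ i, Fin (n i + 1) => (none : Option (σ p.1)))).mul
      (hb.of_iic.rename1 (τ := fun p : Σ i, Fin (n i + 1) => Option (σ p.1)) (fun p => some)))
  refine h1.mono fun p => ?_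
  rintro _ rfl
  rw [QC.fa, if_pos (Nat.lt_succ_iff.1 p.2.2)]
  rfl

theorem EasyP.fb (hn : Bd L n) (ha : EasyP L (fun i => a i '' Set.Iic (n i)))
    (hb : EasyP L (fun i => b i '' Set.Iic (n i))) :
    EasyP L (σ := fun i => Option (σ i)) (fun i => QC.fb (a i) (b i) (n i) '' Set.Iic (n i)) := by
  refine EasyP.iic_of hn ?_
  have h1 := (ha.of_iic.rename1 (τ := fun p : Σ i, Fin (n i + 1) => Option (σ p.1))
      (fun p => some)).sub ((EasyP.var1 (fun p : Σ i, Fin (n i + 1) => (none : Option (σ p.1)))).mul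
      (hb.of_iic.rename1 (τ := fun p : Σ i, Fin (n i + 1) => Option (σ p.1)) (fun p => some)))
  refine h1.mono fun p => ?_
  rintro _ rfl
  rw [QC.fb, if_pos (Nat.lt_succ_iff.1 p.2.2)]
  rfl

/-- A common factor, a power of a variable. -/
theorem EasyP.rot {f : ∀ i, ℕ → MvPolynomial (σ i) ℤ} (hn : Bd L n)
    (hf : EasyP L (fun i => f i '' Set.Iic (n i))) {g : ∀ i, MvPolynomial (σ i) ℤ}
    (hg : EasyP L (fun i => {g i})) :
    EasyP L (fun i => (fun k => g i ^ k * f i k) '' Set.Iic (n i)) := by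
  refine EasyP.iic_of hn ?_
  have hk : Bd (fun p : Σ i, Fin (n i + 1) => L p.1) (fun p => (p.2 : ℕ)) :=
    (hn.comap (fun p : Σ i, Fin (n i + 1) => p.1)).mono fun p => Nat.lt_succ_iff.1 p.2.2
  exact ((hg.comap (fun p : Σ i, Fin (n i + 1) => p.1)).pow hk).mul hf.of_iic

/-- The power sums of the sums of roots as real polynomials: hypotheses on the coefficients. -/
theorem EasyP.sr {α β : ∀ i, ℕ → MvPolynomial (Option (σ i)) ℤ} {m : ι → ℕ} (hm : Bd L m)
    (hα : EasyP L (σ := fun i => Option (σ i)) (fun i => α i '' Set.Iic (m i)))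
    (hβ : EasyP L (σ := fun i => Option (σ i)) (fun i => β i '' Set.Iic (m i)))
    {D : ∀ i, Set (σ i → ℝ)} {P : ∀ i, (σ i → ℝ) → Polynomial ℂ}
    (h1 : ∀ i, ∀ x ∈ D i, ∀ k, cev (ptI x) (α i k) = (P i x).coeff k)
    (h2 : ∀ i, ∀ x ∈ D i, ∀ k, cev (ptI x) (β i k) = (cjW (P i x)).coeff k)
    (h3 : ∀ i, ∀ x ∈ D i, (P i x).natDegree = m i) :
    ∃ s : ∀ i, ℕ → MvPolynomial (σ i) ℤ, EasyP L (fun i => s i '' Set.Iic (2 * m i ^ 2)) ∧
      ∀ i, ∀ x ∈ D i, ∀ k ≤ 2 * m i ^ 2, ev x (s i k) = SR (P i x) k := by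
  have hK : Bd L (fun i => 2 * m i ^ 2) := (Bd.const 2).mul (hm.pow 2)
  have h4 := EasyP.sk hm hK hα hβ
  have h5 : EasyP L (σ := fun i => Option (σ i))
      (fun i => Set.range fun k : Fin (2 * m i ^ 2 + 1) => QC.sk (α i) (β i) (m i) k) :=
    h4.mono fun i => by
      rintro _ ⟨k, rfl⟩
      exact ⟨k, Set.mem_Iic.2 (Nat.lt_succ_iff.1 k.2), rfl⟩
  obtain ⟨N, hN, h6, h7, -⟩ := EasyP.reIm (κ := fun i => Fin (2 * m i ^ 2 + 1))
    (by simpa using hK.add (Bd.const 1)) h5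
  refine ⟨fun i k => reP (N i) (QC.sk (α i) (β i) (m i) k), h7.mono fun i => ?_, ?_⟩
  · rintro _ ⟨k, hk, rfl⟩
    exact ⟨⟨k, Nat.lt_succ_of_le hk⟩, rfl⟩
  · intro i x hx k hk
    have h8 := cev_ptI (h6 i ⟨k, Nat.lt_succ_of_le hk⟩) x
    have h9 : cev (ptI x) (QC.sk (α i) (β i) (m i) k) =
        QC.sk (P i x).coeff (cjW (P i x)).coeff (P i x).natDegree k := by
      rw [cev, ← AlgHom.coe_toRingHom, map_sk, h3 i x hx]
      congr 1
      · funext j; exact h1 i x hx j
      · funext j; exact h2 i x hx j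
    rw [SR, ← h9, h8]
    simp

end Easy

end Pool.Agent.QC
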