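import Pool.Agent.QC.Word.OTDec

/-!
# The largest coefficient which does not vanish identically along a segment
-/

namespace Pool.Agent.QC

open MvPolynomial

section Def

variable {σ : Type*}

theorem ev_pt_spec (g : MvPolynomial (Option σ) ℤ) (y : σ → ℝ) (z : ℝ) :
    ev (pt y z) g = (spec (zpoly g) y).eval z := ev_pt g y z

theorem spec_zpoly_mul (g h : MvPolynomial (Option σ) ℤ) (y : σ → ℝ) :
    spec (zpoly (g * h)) y = spec (zpoly g) y * spec (zpoly h) y := by
  rw [zpoly_mul, spec, spec, spec, Polynomial.map_mul]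

open Classical in
/-- The largest `k ≤ N` such that the coefficient `Q_k (y, .)` is not the zero polynomial. -/
noncomputable def topIdx (Q : Polynomial (MvPolynomial (Option σ) ℤ)) (N : ℕ) (y : σ → ℝ) : ℕ :=
  ((Finset.range (N + 1)).filter fun k => spec (zpoly (Q.coeff k)) y ≠ 0).sup id

variable {Q : Polynomial (MvPolynomial (Option σ) ℤ)} {N : ℕ} {y : σ → ℝ}

theorem topIdx_le : topIdx Q N y ≤ N := by
  refine Finset.sup_le fun k hk => ?_
  exact Nat.lt_succ_iff.1 (Finset.mem_range.1 (Finset.mem_filter.1 hk).1)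

theorem topIdx_spec {k₀ : ℕ} (hk₀ : k₀ ≤ N) (h : spec (zpoly (Q.coeff k₀)) y ≠ 0) :
    spec (zpoly (Q.coeff (topIdx Q N y))) y ≠ 0 := by
  classical
  obtain ⟨k, hk, hk'⟩ := Finset.exists_mem_eq_sup
    ((Finset.range (N + 1)).filter fun k => spec (zpoly (Q.coeff k)) y ≠ 0)
    ⟨k₀, Finset.mem_filter.2 ⟨Finset.mem_range.2 (Nat.lt_succ_of_le hk₀), h⟩⟩ id
  have h1 : topIdx Q N y = k := by
    rw [topIdx]
    exact hk'
  rw [h1]
  exact (Finset.mem_filter.1 hk).2

theorem topIdx_lt {k : ℕ} (hk : topIdx Q N y < k) (hkN : k ≤ N) :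
    spec (zpoly (Q.coeff k)) y = 0 := by
  classical
  by_contra h
  have h1 : k ≤ topIdx Q N y := by
    rw [topIdx]
    exact Finset.le_sup (f := id) (Finset.mem_filter.2 ⟨Finset.mem_range.2 (Nat.lt_succ_of_le hkN), h⟩)
  omega

/-- The degree of `Q (y, s)` where the top coefficient does not vanish. -/
theorem natDegree_topIdx (hQ : Q.natDegree ≤ N) {s : ℝ}
    (h : ev (pt y s) (Q.coeff (topIdx Q N y)) ≠ 0) :
    (spec Q (pt y s)).natDegree = topIdx Q N y := by
  refine le_antisymm ?_ ?_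
  · rw [Polynomial.natDegree_le_iff_coeff_eq_zero]
    intro k hk
    rw [spec_coeff]
    by_cases hkN : k ≤ N
    · rw [ev_pt_spec, topIdx_lt hk hkN, Polynomial.eval_zero]
    · rw [Polynomial.coeff_eq_zero_of_natDegree_lt (by omega), ev_zero]
  · refine Polynomial.le_natDegree_of_ne_zero ?_
    rw [spec_coeff]
    exact h

theorem topIdx_congr {y' : σ → ℝ}
    (h : ∀ k ≤ N, spec (zpoly (Q.coeff k)) y = 0 ↔ spec (zpoly (Q.coeff k)) y' = 0) :
    topIdx Q N y = topIdx Q N y' := by
  classical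
  rw [topIdx, topIdx]
  congr 1
  refine Finset.filter_congr fun k hk => ?_
  rw [Ne, Ne, h k (Nat.lt_succ_iff.1 (Finset.mem_range.1 hk))]

end Def

section Easy

variable {ι : Type*} {L : ι → ℕ} {σ : ι → Type*}

theorem Easy.topIdx {Q : ∀ i, Polynomial (MvPolynomial (Option (σ i)) ℤ)} {N : ι → ℕ}
    (hN : Bd L N)
    (hQ : EasyP L (σ := fun i => Option (σ i)) (fun i => Set.range (Q i).coeff))
    {D : ∀ i, Set (σ i → ℝ)} : Easy L D (fun i y => QC.topIdx (Q i) (N i) y) := by
  obtain ⟨B, hB, _, _, hd⟩ := hQ.bd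
  have hκ : Bd L (fun i => Fintype.card (Fin (N i + 1) × Fin (B i + 1))) := by
    simpa using (hN.add (Bd.const 1)).mul (hB.add (Bd.const 1))
  have h1 : EasyP L (σ := σ) (fun i => Set.range fun p : Fin (N i + 1) × Fin (B i + 1) =>
      zc ((Q i).coeff p.1) p.2) :=
    hQ.zc.mono fun i => by
      rintro _ ⟨p, rfl⟩
      exact ⟨_, ⟨_, rfl⟩, _, rfl⟩
  refine (Easy.signs (D := D) hκ h1).factor fun i x _ y _ hxy => ?_
  have hxy' : ∀ p : Fin (N i + 1) × Fin (B i + 1),
      SignType.sign (ev x (zc ((Q i).coeff p.1) p.2)) =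
        SignType.sign (ev y (zc ((Q i).coeff p.1) p.2)) := fun p => congrFun hxy p
  have h2 : ∀ k ≤ N i, ∀ j, ev x (zc ((Q i).coeff k) j) = 0 ↔ ev y (zc ((Q i).coeff k) j) = 0 := by
    intro k hk j
    by_cases hj : j ≤ B i
    · have h3 := hxy' (⟨k, Nat.lt_succ_of_le hk⟩, ⟨j, Nat.lt_succ_of_le hj⟩)
      simp only at h3
      rw [← sign_eq_zero_iff, h3, sign_eq_zero_iff]
    · have h3 : zc ((Q i).coeff k) j = 0 := by
        rw [zc]
        refine Polynomial.coeff_eq_zero_of_natDegree_lt ?_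
        have h4 := natDegree_zpoly ((Q i).coeff k)
        have h5 := hd i _ ⟨k, rfl⟩
        omega
      rw [h3, ev_zero, ev_zero]
  refine topIdx_congr fun k hk => ?_
  constructor
  · intro h
    ext j
    rw [spec_coeff, Polynomial.coeff_zero]
    refine (h2 k hk j).1 ?_
    have h3 := congrArg (fun P => Polynomial.coeff P j) h
    simp only [spec_coeff, Polynomial.coeff_zero] at h3
    exact h3
  · intro h
    ext j
    rw [spec_coeff, Polynomial.coeff_zero]
    refine (h2 k hk j).2 ?_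
    have h3 := congrArg (fun P => Polynomial.coeff P j) h
    simp only [spec_coeff, Polynomial.coeff_zero] at h3
    exact h3

end Easy

end Pool.Agent.QC
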