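import Pool.Agent.QC.Word.Const
import Pool.Agent.QC.Word.Hank
import Pool.Agent.QC.Lab.Const

/-!
# Semantics of the words (MP_7c50a9_lc, 10.3)
-/

set_option autoImplicit false

namespace Pool.Agent.QC

open Polynomial Set

/-! ### W4: order types of the zero set -/

/-- Order types of a finite set, in both forms. -/
theorem OT_coe (Z : Finset ℂ) : QC.OT (Z : Set ℂ) = (Lab.OTs Z : Set (ℕ × ℕ)) := by
  have h : ∀ z, rk (Z : Set ℂ) z = Lab.pr Z z := by
    intro z
    have key : ∀ (f : ℂ → ℝ) (c : ℝ), {x ∈ f '' (Z : Set ℂ) | x < c}.ncard =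
        ((Z.image f).filter fun y => y < c).card := by
      intro f c
      rw [← Set.ncard_coe_finset]
      have h2 : {x ∈ f '' (Z : Set ℂ) | x < c} =
          (((Z.image f).filter fun y => y < c : Finset ℝ) : Set ℝ) := by
        ext x
        simp
      rw [h2]
    unfold rk Lab.pr Lab.rk
    exact Prod.ext (key Complex.re z.re) (key Complex.im z.im)
  unfold QC.OT Lab.OTs
  rw [Finset.coe_image]
  exact Set.image_congr fun z _ => h z

theorem OT_zeros {p : ℂ[X]} (hp : p ≠ 0) :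
    QC.OT {z | p.eval z = 0} = (Lab.OT p : Set (ℕ × ℕ)) := by
  have h : {z | p.eval z = 0} = ((p.roots.toFinset : Finset ℂ) : Set ℂ) := by
    ext z
    simp [hp]
  rw [h, OT_coe]
  rfl

/-! ### W2: constant order type -/

/-- The number of distinct sums. -/
private theorem card_sroots_img {p : ℂ[X]} (hp : p ≠ 0) {M : ℕ} {z : Fin M → ℂ}
    (hz : p.roots.toFinset = Lab.img z) :
    (sroots p (cjW p)).toFinset.card =
      (Set.range fun q : Fin M × Fin M => z q.1 + (starRingEnd ℂ) (z q.2)).ncard := by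
  have hc : p.leadingCoeff * (cjW p).leadingCoeff ≠ 0 := by
    rw [leadingCoeff_cjW]
    have h1 : p.leadingCoeff ≠ 0 := leadingCoeff_ne_zero.2 hp
    exact mul_ne_zero h1 ((_root_.map_ne_zero _).2 h1)
  have hmem : ∀ w, w ∈ p.roots ↔ ∃ i, z i = w := by
    intro w
    rw [← Multiset.mem_toFinset, hz, Lab.img, Finset.mem_image]
    simp
  rw [← Set.ncard_coe_finset]
  have h2 : (((sroots p (cjW p)).toFinset : Finset ℂ) : Set ℂ) =
      (fun x => p.leadingCoeff * (cjW p).leadingCoeff * x) ''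
        (Set.range fun q : Fin M × Fin M => z q.1 + (starRingEnd ℂ) (z q.2)) := by
    ext w
    simp only [Finset.mem_coe, Multiset.mem_toFinset, sroots, Multiset.mem_bind,
      Multiset.mem_map, roots_cjW, Set.mem_image, Set.mem_range, Prod.exists]
    constructor
    · rintro ⟨a, ha, _, ⟨b, hb, rfl⟩, rfl⟩
      obtain ⟨i, rfl⟩ := (hmem a).1 ha
      obtain ⟨j, rfl⟩ := (hmem b).1 hb
      exact ⟨_, ⟨i, j, rfl⟩, rfl⟩
    · rintro ⟨_, ⟨i, j, rfl⟩, rfl⟩
      exact ⟨z i, (hmem _).2 ⟨i, rfl⟩, _, ⟨z j, (hmem _).2 ⟨j, rfl⟩, rfl⟩, rfl⟩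
  rw [h2, Set.ncard_image_of_injective _ (mul_right_injective₀ hc)]

/-- The roots after the rotation. -/
private theorem roots_rot {p : ℂ[X]} (hp : p ≠ 0) {M : ℕ} {z : Fin M → ℂ}
    (hz : p.roots.toFinset = Lab.img z) :
    p.comp (C Complex.I * X) ≠ 0 ∧
      (p.comp (C Complex.I * X)).roots.toFinset = Lab.img fun j => -Complex.I * z j := by
  have hI : Complex.I * -Complex.I = 1 := by rw [mul_neg, Complex.I_mul_I, neg_neg]
  have hne : p.comp (C Complex.I * X) ≠ 0 := by
    intro h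
    apply hp
    have h2 : (p.comp (C Complex.I * X)).comp (C (-Complex.I) * X) = p := by
      rw [comp_assoc, mul_comp, C_comp, X_comp, ← mul_assoc, ← C_mul, hI, C_1, one_mul, comp_X]
    rw [← h2, h, zero_comp]
  refine ⟨hne, ?_⟩
  ext w
  rw [Multiset.mem_toFinset, mem_roots hne, IsRoot.def, eval_comp, eval_mul, eval_C, eval_X,
    ← IsRoot.def, ← mem_roots hp, ← Multiset.mem_toFinset, hz, Lab.img, Lab.img,
    Finset.mem_image, Finset.mem_image]
  constructor
  · rintro ⟨j, hj, h⟩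
    refine ⟨j, hj, ?_⟩
    rw [h, ← mul_assoc, mul_comm (-Complex.I), hI, one_mul]
  · rintro ⟨j, hj, rfl⟩
    exact ⟨j, hj, by rw [← mul_assoc, hI, one_mul]⟩

theorem OT_const_fam {p : ℝ → ℂ[X]} {I : Set ℝ} (hI : IsPreconnected I) (hI1 : I ⊆ Icc 0 1)
    (hcont : ∀ k, ContinuousOn (fun s => (p s).coeff k) (Icc 0 1)) {m M : ℕ}
    (hm : ∀ s ∈ Icc (0 : ℝ) 1, (p s).natDegree = m) (h0 : ∀ s ∈ Icc (0 : ℝ) 1, p s ≠ 0)
    (hM : ∀ s ∈ Icc (0 : ℝ) 1, (p s).roots.toFinset.card = M)
    (hX : ∀ s ∈ I, ∀ t ∈ I, (sroots (p s) (cjW (p s))).toFinset.card =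
      (sroots (p t) (cjW (p t))).toFinset.card)
    (hY : ∀ s ∈ I, ∀ t ∈ I,
      (sroots ((p s).comp (C Complex.I * X)) (cjW ((p s).comp (C Complex.I * X)))).toFinset.card =
      (sroots ((p t).comp (C Complex.I * X)) (cjW ((p t).comp (C Complex.I * X)))).toFinset.card) :
    ∀ s ∈ I, ∀ t ∈ I, Lab.OT (p s) = Lab.OT (p t) := by
  obtain ⟨z, hz⟩ := Lab.labels_exist hcont hm h0 hM
  intro s hs t ht
  refine Lab.OT_const hI hI1 hz (N := (Set.range fun q : Fin M × Fin M =>
      z q.1 s + (starRingEnd ℂ) (z q.2 s)).ncard) (N' := (Set.range fun q : Fin M × Fin M =>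
      z q.1 s - (starRingEnd ℂ) (z q.2 s)).ncard) (fun r hr => ?_) (fun r hr => ?_) hs ht
  · rw [← card_sroots_img (h0 r (hI1 hr)) (hz.2.2 r (hI1 hr)),
      ← card_sroots_img (h0 s (hI1 hs)) (hz.2.2 s (hI1 hs))]
    exact hX r hr s hs
  · have key : ∀ r ∈ I, (sroots ((p r).comp (C Complex.I * X))
        (cjW ((p r).comp (C Complex.I * X)))).toFinset.card =
        (Set.range fun q : Fin M × Fin M => z q.1 r - (starRingEnd ℂ) (z q.2 r)).ncard := by
      intro r hr
      obtain ⟨h1, h2⟩ := roots_rot (h0 r (hI1 hr)) (hz.2.2 r (hI1 hr))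
      rw [card_sroots_img h1 h2]
      have h3 : (Set.range fun q : Fin M × Fin M =>
          -Complex.I * z q.1 r + (starRingEnd ℂ) (-Complex.I * z q.2 r)) =
          (fun x => -Complex.I * x) '' (Set.range fun q : Fin M × Fin M =>
            z q.1 r - (starRingEnd ℂ) (z q.2 r)) := by
        rw [← Set.range_comp]
        congr 1
        funext q
        simp only [Function.comp, map_mul, map_neg, Complex.conj_I]
        ring
      rw [h3, Set.ncard_image_of_injective _
        (mul_right_injective₀ (neg_ne_zero.2 Complex.I_ne_zero))]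
    rw [← key r hr, ← key s hs]
    exact hY r hr s hs

/-! ### W3: order types from tables -/

/-- The rank in an increasing enumeration. -/
private theorem rk_enum {A : Finset ℕ} {x : ℕ → ℝ} (hx : StrictMonoOn x A) {i : ℕ} (hi : i ∈ A) :
    Lab.rk (A.image x) (x i) = (A.filter fun j => j < i).card := by
  unfold Lab.rk
  have h : (A.image x).filter (fun y => y < x i) = (A.filter fun j => j < i).image x := by
    ext y
    simp only [Finset.mem_filter, Finset.mem_image]
    constructor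
    · rintro ⟨⟨j, hj, rfl⟩, h⟩
      exact ⟨j, ⟨hj, (hx.lt_iff_lt hj hi).1 h⟩, rfl⟩
    · rintro ⟨j, ⟨hj, h⟩, rfl⟩
      exact ⟨⟨j, hj, rfl⟩, (hx.lt_iff_lt hj hi).2 h⟩
  rw [h, Finset.card_image_of_injOn]
  exact hx.injOn.mono fun j hj => (Finset.mem_filter.1 hj).1

/-- The order type of a set of points on a grid. -/
private theorem OTs_grid {R : Finset (ℕ × ℕ)} {x y : ℕ → ℝ}
    (hx : StrictMonoOn x (R.image Prod.fst : Finset ℕ))
    (hy : StrictMonoOn y (R.image Prod.snd : Finset ℕ)) :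
    Lab.OTs (R.image fun q => (x q.1 : ℂ) + (y q.2 : ℂ) * Complex.I) =
      R.image fun q => (((R.image Prod.fst).filter fun j => j < q.1).card,
        ((R.image Prod.snd).filter fun j => j < q.2).card) := by
  unfold Lab.OTs
  rw [Finset.image_image]
  refine Finset.image_congr fun q hq => ?_
  have e1 : ((R.image fun q => (x q.1 : ℂ) + (y q.2 : ℂ) * Complex.I).image Complex.re) =
      (R.image Prod.fst).image x := by
    rw [Finset.image_image, Finset.image_image]
    refine Finset.image_congr fun r _ => ?_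
    simp
  have e2 : ((R.image fun q => (x q.1 : ℂ) + (y q.2 : ℂ) * Complex.I).image Complex.im) =
      (R.image Prod.snd).image y := by
    rw [Finset.image_image, Finset.image_image]
    refine Finset.image_congr fun r _ => ?_
    simp
  have f1 : ((x q.1 : ℂ) + (y q.2 : ℂ) * Complex.I).re = x q.1 := by simp
  have f2 : ((x q.1 : ℂ) + (y q.2 : ℂ) * Complex.I).im = y q.2 := by simp
  show Lab.pr _ ((x q.1 : ℂ) + (y q.2 : ℂ) * Complex.I) = _
  unfold Lab.pr
  rw [e1, e2, f1, f2, rk_enum hx (Finset.mem_image_of_mem _ hq),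
    rk_enum hy (Finset.mem_image_of_mem _ hq)]

/-- The roots on the grid. -/
private theorem OT_grid {p : ℂ[X]} {c : ℝ} (hc : 0 < c) {xs ys : List ℝ}
    (hxs : xs.Pairwise (· < ·)) (hys : ys.Pairwise (· < ·))
    (hx : ∀ z ∈ p.roots, c * z.re ∈ xs) (hy : ∀ z ∈ p.roots, c * z.im ∈ ys) (hp : p ≠ 0)
    {R : Finset (ℕ × ℕ)} (hR : ∀ q : ℕ × ℕ, q ∈ R ↔ q.1 < xs.length ∧ q.2 < ys.length ∧
      p.eval (((xs.getD q.1 0 : ℝ) + ((ys.getD q.2 0 : ℝ) : ℂ) * Complex.I) / (c : ℂ)) = 0) :
    Lab.OT p = R.image fun q => (((R.image Prod.fst).filter fun j => j < q.1).card,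
        ((R.image Prod.snd).filter fun j => j < q.2).card) := by
  have hc' : (c : ℂ) ≠ 0 := by exact_mod_cast hc.ne'
  have mono : ∀ {l : List ℝ} (hl : l.Pairwise (· < ·)) {i j : ℕ}, i < l.length → j < l.length →
      i < j → l.getD i 0 / c < l.getD j 0 / c := by
    intro l hl i j hi hj hij
    rw [List.getD_eq_getElem _ _ hi, List.getD_eq_getElem _ _ hj]
    exact div_lt_div_of_pos_right (List.pairwise_iff_getElem.1 hl i j hi hj hij) hc
  rw [← OTs_grid (R := R) (x := fun i => xs.getD i 0 / c) (y := fun i => ys.getD i 0 / c)]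
  · unfold Lab.OT
    congr 1
    have e : ∀ q : ℕ × ℕ, (((xs.getD q.1 0 / c : ℝ) : ℂ) + ((ys.getD q.2 0 / c : ℝ) : ℂ) *
        Complex.I) = ((xs.getD q.1 0 : ℝ) + ((ys.getD q.2 0 : ℝ) : ℂ) * Complex.I) / (c : ℂ) := by
      intro q
      push_cast
      ring
    ext z
    rw [Multiset.mem_toFinset, Finset.mem_image]
    constructor
    · intro hz
      obtain ⟨i, hi, hi'⟩ := List.mem_iff_getElem.1 (hx z hz)
      obtain ⟨j, hj, hj'⟩ := List.mem_iff_getElem.1 (hy z hz)
      have h1 : ((xs.getD i 0 : ℝ) + ((ys.getD j 0 : ℝ) : ℂ) * Complex.I) / (c : ℂ) = z := by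
        rw [List.getD_eq_getElem _ _ hi, List.getD_eq_getElem _ _ hj, hi', hj']
        conv_rhs => rw [← Complex.re_add_im z]
        push_cast
        field_simp
      refine ⟨(i, j), (hR _).2 ⟨hi, hj, ?_⟩, ?_⟩
      · show p.eval (((xs.getD i 0 : ℝ) + ((ys.getD j 0 : ℝ) : ℂ) * Complex.I) / (c : ℂ)) = 0
        rw [h1]
        exact (mem_roots hp).1 hz
      · rw [e]
        exact h1
    · rintro ⟨q, hq, rfl⟩
      rw [mem_roots hp, e]
      exact ((hR q).1 hq).2.2
  · intro i hi j hj hij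
    simp only [Finset.coe_image, Set.mem_image, Finset.mem_coe] at hi hj
    obtain ⟨q, hq, rfl⟩ := hi
    obtain ⟨r, hr, rfl⟩ := hj
    exact mono hxs ((hR q).1 hq).1 ((hR r).1 hr).1 hij
  · intro i hi j hj hij
    simp only [Finset.coe_image, Set.mem_image, Finset.mem_coe] at hi hj
    obtain ⟨q, hq, rfl⟩ := hi
    obtain ⟨r, hr, rfl⟩ := hj
    exact mono hys ((hR q).1 hq).2.1 ((hR r).1 hr).2.1 hij

theorem OT_of_table {p p' : ℂ[X]} {c c' : ℝ} (hc : 0 < c) (hc' : 0 < c')
    {xs ys xs' ys' : List ℝ} (hxs : xs.Pairwise (· < ·)) (hys : ys.Pairwise (· < ·))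
    (hxs' : xs'.Pairwise (· < ·)) (hys' : ys'.Pairwise (· < ·))
    (hx : ∀ z ∈ p.roots, c * z.re ∈ xs) (hy : ∀ z ∈ p.roots, c * z.im ∈ ys)
    (hx' : ∀ z ∈ p'.roots, c' * z.re ∈ xs') (hy' : ∀ z ∈ p'.roots, c' * z.im ∈ ys')
    (hp : p ≠ 0) (hp' : p' ≠ 0)
    (h : xs.map (fun u : ℝ => ys.map fun v : ℝ =>
        (p.eval (((u : ℂ) + (v : ℂ) * Complex.I) / (c : ℂ)) = 0)) =
      xs'.map (fun u : ℝ => ys'.map fun v : ℝ =>
        (p'.eval (((u : ℂ) + (v : ℂ) * Complex.I) / (c' : ℂ)) = 0))) :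
    Lab.OT p = Lab.OT p' := by
  classical
  have hl : xs.length = xs'.length := by
    have := congrArg List.length h
    simpa using this
  have hrow : ∀ i, i < xs.length → ys.map (fun v : ℝ =>
        (p.eval ((((xs.getD i 0 : ℝ) : ℂ) + (v : ℂ) * Complex.I) / (c : ℂ)) = 0)) =
      ys'.map (fun v : ℝ =>
        (p'.eval ((((xs'.getD i 0 : ℝ) : ℂ) + (v : ℂ) * Complex.I) / (c' : ℂ)) = 0)) := by
    intro i hi
    have hi' : i < xs'.length := hl ▸ hi
    have h1 : (xs.map (fun u : ℝ => ys.map fun v : ℝ =>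
        (p.eval (((u : ℂ) + (v : ℂ) * Complex.I) / (c : ℂ)) = 0)))[i]? =
      (xs'.map (fun u : ℝ => ys'.map fun v : ℝ =>
        (p'.eval (((u : ℂ) + (v : ℂ) * Complex.I) / (c' : ℂ)) = 0)))[i]? := by rw [h]
    rw [List.getElem?_map, List.getElem?_map, List.getElem?_eq_getElem hi,
      List.getElem?_eq_getElem hi', Option.map_some, Option.map_some, Option.some_inj] at h1
    rw [List.getD_eq_getElem _ _ hi, List.getD_eq_getElem _ _ hi']
    exact h1
  have hll : ∀ i, i < xs.length → ys.length = ys'.length := by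
    intro i hi
    have := congrArg List.length (hrow i hi)
    simpa using this
  have hcell : ∀ i j, i < xs.length → j < ys.length →
      (p.eval ((((xs.getD i 0 : ℝ) : ℂ) + ((ys.getD j 0 : ℝ) : ℂ) * Complex.I) / (c : ℂ)) = 0 ↔
      p'.eval ((((xs'.getD i 0 : ℝ) : ℂ) + ((ys'.getD j 0 : ℝ) : ℂ) * Complex.I) / (c' : ℂ)) = 0)
      := by
    intro i j hi hj
    have hj' : j < ys'.length := (hll i hi) ▸ hj
    have h1 := congrArg (fun l => l[j]?) (hrow i hi)
    simp only [List.getElem?_map, List.getElem?_eq_getElem hj, List.getElem?_eq_getElem hj',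
      Option.map_some, Option.some_inj] at h1
    rw [List.getD_eq_getElem ys _ hj, List.getD_eq_getElem ys' _ hj']
    exact iff_of_eq h1
  set R : Finset (ℕ × ℕ) := (Finset.range xs.length ×ˢ Finset.range ys.length).filter fun q =>
    p.eval (((xs.getD q.1 0 : ℝ) + ((ys.getD q.2 0 : ℝ) : ℂ) * Complex.I) / (c : ℂ)) = 0 with hR
  rw [OT_grid hc hxs hys hx hy hp (R := R) (fun q => by
      simp only [hR, Finset.mem_filter, Finset.mem_product, Finset.mem_range, and_assoc]),
    OT_grid hc' hxs' hys' hx' hy' hp' (R := R) (fun q => by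
      simp only [hR, Finset.mem_filter, Finset.mem_product, Finset.mem_range, and_assoc]
      constructor
      · rintro ⟨h1, h2, h3⟩
        exact ⟨hl ▸ h1, (hll _ h1) ▸ h2, (hcell _ _ h1 h2).1 h3⟩
      · rintro ⟨h1, h2, h3⟩
        have h1' : q.1 < xs.length := hl.symm ▸ h1
        have h2' : q.2 < ys.length := (hll _ h1').symm ▸ h2
        exact ⟨h1', h2', (hcell _ _ h1' h2').2 h3⟩)]

/-! ### W1: words with equal lists -/

/-- A continuous increasing function with `φ 0 = 0`, `φ 1 = 1` as an order isomorphism. -/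
private theorem iso_of_mono {φ : ℝ → ℝ} (hφ : Continuous φ) (hm : StrictMono φ) (h0 : φ 0 = 0)
    (h1 : φ 1 = 1) : ∃ ψ : Icc (0 : ℝ) 1 ≃o Icc (0 : ℝ) 1, ∀ s : Icc (0 : ℝ) 1,
      ((ψ s : Icc (0 : ℝ) 1) : ℝ) = φ s := by
  let g : Icc (0 : ℝ) 1 → Icc (0 : ℝ) 1 := fun s =>
    ⟨φ s, h0.symm.le.trans (hm.monotone s.2.1), (hm.monotone s.2.2).trans h1.le⟩
  have hg : StrictMono g := fun s t hst => hm hst
  have hs : Function.Surjective g := by
    intro t
    obtain ⟨s, hs, hs'⟩ := intermediate_value_Icc zero_le_one hφ.continuousOn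
      (show (t : ℝ) ∈ Icc (φ 0) (φ 1) by rw [h0, h1]; exact t.2)
    exact ⟨⟨s, hs⟩, Subtype.ext hs'⟩
  exact ⟨hg.orderIsoOfSurjective g hs, fun s => rfl⟩

/-- A polynomial with a root which is not zero has a nonzero derivative. -/
private theorem mul_derivative_ne_zero {P : ℝ[X]} (hP : P ≠ 0) (h0 : P.eval 0 = 0) :
    P * derivative P ≠ 0 := by
  refine mul_ne_zero hP ?_
  intro h
  have h2 := derivative_eq_zero.1 h
  obtain ⟨c, hc2⟩ := natDegree_eq_zero.1 h2
  rw [← hc2, eval_C] at h0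
  rw [← hc2, h0, C_0] at hP
  exact hP rfl

/-- Between two consecutive roots of `P P'`: one end is not a root of `P`, and the half open
interval with this end has no root of `P`. -/
private theorem consec {β : Type*} (O : ℝ → β) (P : ℝ[X])
    (hc : ∀ I ⊆ Icc (0 : ℝ) 1, IsPreconnected I → (∀ s ∈ I, P.eval s ≠ 0) →
      ∀ s ∈ I, ∀ t ∈ I, O s = O t) (L : List ℝ) (hsort : L.Pairwise (· < ·))
    (hmem : ∀ s, (P * derivative P).eval s = 0 → s ∈ L) (i : ℕ) (hi : i + 1 < L.length)
    (hi0 : 0 ≤ L[i]) (hi1 : L[i + 1] ≤ 1) :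
      (P.eval L[i] ≠ 0 ∨ P.eval L[i + 1] ≠ 0) ∧
      (P.eval L[i] ≠ 0 → ∀ s ∈ Ioo L[i] L[i + 1], O s = O L[i]) ∧
      (P.eval L[i + 1] ≠ 0 → ∀ s ∈ Ioo L[i] L[i + 1], O s = O L[i + 1]) := by
  have hlt : L[i] < L[i + 1] := List.pairwise_iff_getElem.1 hsort i (i + 1) _ _ (by omega)
  -- no root in between
  have hno : ∀ s ∈ Ioo L[i] L[i + 1], (P * derivative P).eval s ≠ 0 := by
    intro s hs h
    have hsL : s ∈ L := hmem s h
    obtain ⟨j, hj, hj'⟩ := List.mem_iff_getElem.1 hsL
    rcases lt_trichotomy j i with h2 | h2 | h2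
    · have := List.pairwise_iff_getElem.1 hsort j i hj (by omega) h2
      rw [hj'] at this
      exact absurd hs.1 this.not_gt
    · subst h2
      exact absurd hs.1 (by rw [hj']; exact lt_irrefl _)
    · rcases Nat.lt_or_ge (i + 1) j with h3 | h3
      · have := List.pairwise_iff_getElem.1 hsort (i + 1) j (by omega) hj h3
        rw [hj'] at this
        exact absurd hs.2 this.not_gt
      · have h4 : j = i + 1 := by omega
        subst h4
        exact absurd hs.2 (by rw [hj']; exact lt_irrefl _)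
  have hno' : ∀ s ∈ Ioo L[i] L[i + 1], P.eval s ≠ 0 := by
    intro s hs h
    exact hno s hs (by rw [eval_mul, h, zero_mul])
  refine ⟨?_, fun h s hs => ?_, fun h s hs => ?_⟩
  · by_contra hcon
    push Not at hcon
    obtain ⟨s, hs, hs'⟩ := exists_hasDerivAt_eq_zero (f := fun x => P.eval x)
      (f' := fun x => (derivative P).eval x) hlt P.continuous.continuousOn
      (by show P.eval L[i] = P.eval L[i + 1]; rw [hcon.1, hcon.2]) (fun x _ => P.hasDerivAt x)
    exact hno s hs (by rw [eval_mul, hs', mul_zero])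
  · refine hc (Ico L[i] L[i + 1]) (fun t ht => ⟨hi0.trans ht.1, ht.2.le.trans hi1⟩)
      isPreconnected_Ico (fun t ht => ?_) s ⟨hs.1.le, hs.2⟩ _ ⟨le_rfl, hlt⟩
    rcases eq_or_lt_of_le ht.1 with h2 | h2
    · rw [← h2]; exact h
    · exact hno' t ⟨h2, ht.2⟩
  · refine hc (Ioc L[i] L[i + 1]) (fun t ht => ⟨hi0.trans ht.1.le, ht.2.trans hi1⟩)
      isPreconnected_Ioc (fun t ht => ?_) s ⟨hs.1, hs.2.le⟩ _ ⟨hlt, le_rfl⟩
    rcases eq_or_lt_of_le ht.2 with h2 | h2
    · rw [h2]; exact h
    · exact hno' t ⟨ht.1, h2⟩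

theorem exists_iso_of_list {β : Type*} (O O' : ℝ → β) (P P' : ℝ[X]) (hP : P ≠ 0) (hP' : P' ≠ 0)
    (h0 : P.eval 0 = 0) (h1 : P.eval 1 = 0) (h0' : P'.eval 0 = 0) (h1' : P'.eval 1 = 0)
    (hc : ∀ I ⊆ Icc (0 : ℝ) 1, IsPreconnected I → (∀ s ∈ I, P.eval s ≠ 0) →
      ∀ s ∈ I, ∀ t ∈ I, O s = O t)
    (hc' : ∀ I ⊆ Icc (0 : ℝ) 1, IsPreconnected I → (∀ s ∈ I, P'.eval s ≠ 0) →
      ∀ s ∈ I, ∀ t ∈ I, O' s = O' t)
    (h : (rootList (P * derivative P)).map (fun s =>
        (SignType.sign s, SignType.sign (1 - s), SignType.sign (P.eval s), O s)) =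
      (rootList (P' * derivative P')).map (fun s =>
        (SignType.sign s, SignType.sign (1 - s), SignType.sign (P'.eval s), O' s))) :
    ∃ φ : Icc (0 : ℝ) 1 ≃o Icc (0 : ℝ) 1, ∀ s : Icc (0 : ℝ) 1, O s = O' (φ s) := by
  have hPd := mul_derivative_ne_zero hP h0
  have hPd' := mul_derivative_ne_zero hP' h0'
  have hmem : ∀ s, (P * derivative P).eval s = 0 → s ∈ rootList (P * derivative P) :=
    fun s h => (mem_rootList hPd).2 h
  have hmem' : ∀ s, (P' * derivative P').eval s = 0 → s ∈ rootList (P' * derivative P') :=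
    fun s h => (mem_rootList hPd').2 h
  have m0 : (0 : ℝ) ∈ rootList (P * derivative P) :=
    (mem_rootList hPd).2 (by rw [eval_mul, h0, zero_mul])
  have m1 : (1 : ℝ) ∈ rootList (P * derivative P) :=
    (mem_rootList hPd).2 (by rw [eval_mul, h1, zero_mul])
  have hsort : (rootList (P * derivative P)).Pairwise (· < ·) := sortedLT_rootList _
  have hsort' : (rootList (P' * derivative P')).Pairwise (· < ·) := sortedLT_rootList _
  generalize rootList (P * derivative P) = L at m0 m1 hsort h hmem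
  generalize rootList (P' * derivative P') = L' at hsort' h hmem'
  have hcon := consec O P hc L hsort hmem
  have hcon' := consec O' P' hc' L' hsort' hmem'
  have hlen : L.length = L'.length := by
    have := congrArg List.length h
    simpa using this
  have hval : ∀ i (hi : i < L.length) (hi' : i < L'.length),
      SignType.sign L[i] = SignType.sign L'[i] ∧
      SignType.sign (1 - L[i]) = SignType.sign (1 - L'[i]) ∧
      SignType.sign (P.eval L[i]) = SignType.sign (P'.eval L'[i]) ∧ O L[i] = O' L'[i] := by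
    intro i hi hi'
    have h2 := congrArg (fun l => l[i]?) h
    simp only [List.getElem?_map, List.getElem?_eq_getElem hi, List.getElem?_eq_getElem hi',
      Option.map_some, Option.some_inj, Prod.mk.injEq] at h2
    exact h2
  obtain ⟨i0, hi0, e0⟩ := List.mem_iff_getElem.1 m0
  obtain ⟨i1, hi1, e1⟩ := List.mem_iff_getElem.1 m1
  have hi01 : i0 < i1 := by
    by_contra hcon2
    rcases Nat.lt_or_ge i1 i0 with h2 | h2
    · have := List.pairwise_iff_getElem.1 hsort i1 i0 hi1 hi0 h2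
      rw [e0, e1] at this
      linarith
    · have h3 : i0 = i1 := by omega
      subst h3
      rw [e0] at e1
      exact zero_ne_one e1
  have e0' : L'[i0]'(hlen ▸ hi0) = 0 := by
    have h2 := (hval i0 hi0 (hlen ▸ hi0)).1
    rw [e0, sign_zero] at h2
    exact sign_eq_zero_iff.1 h2.symm
  have e1' : L'[i1]'(hlen ▸ hi1) = 1 := by
    have h2 := (hval i1 hi1 (hlen ▸ hi1)).2.1
    rw [e1, sub_self, sign_zero] at h2
    have := sign_eq_zero_iff.1 h2.symm
    linarith
  -- the indices between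
  have hle : ∀ {l : List ℝ} (_ : l.Pairwise (· < ·)) {i j : ℕ} (hi : i < l.length)
      (hj : j < l.length), i ≤ j → l[i] ≤ l[j] := by
    intro l hl i j hi hj hij
    rcases eq_or_lt_of_le hij with h2 | h2
    · subst h2; exact le_rfl
    · exact (List.pairwise_iff_getElem.1 hl i j hi hj h2).le
  obtain ⟨φ, hφ1, hφ2, hφ3, hφ4⟩ := Word.exists_homeo' O O' (fun i => L.getD (i0 + i) 0)
    (fun i => L'.getD (i0 + i) 0) (i1 - i0) (fun i hi => by
      rw [List.getD_eq_getElem _ _ (show i0 + i < L.length by omega),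
        List.getD_eq_getElem _ _ (show i0 + (i + 1) < L.length by omega)]
      exact List.pairwise_iff_getElem.1 hsort _ _ _ _ (by omega)) (fun i hi => by
      rw [List.getD_eq_getElem _ _ (show i0 + i < L'.length by omega),
        List.getD_eq_getElem _ _ (show i0 + (i + 1) < L'.length by omega)]
      exact List.pairwise_iff_getElem.1 hsort' _ _ _ _ (by omega)) (fun i hi => by
      rw [List.getD_eq_getElem _ _ (show i0 + i < L.length by omega),
        List.getD_eq_getElem _ _ (show i0 + i < L'.length by omega)]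
      exact (hval _ (by omega) (by omega)).2.2.2) (fun i hi s hs s' hs' => by
      simp only [← Nat.add_assoc] at hs hs'
      rw [List.getD_eq_getElem _ _ (show i0 + i < L.length by omega),
        List.getD_eq_getElem _ _ (show i0 + i + 1 < L.length by omega)] at hs
      rw [List.getD_eq_getElem _ _ (show i0 + i < L'.length by omega),
        List.getD_eq_getElem _ _ (show i0 + i + 1 < L'.length by omega)] at hs'
      obtain ⟨k1, k2, k3⟩ := hcon (i0 + i) (by omega)
        (by rw [← e0]; exact hle hsort _ _ (by omega)) (by rw [← e1]; exact hle hsort _ _ (by omega))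
      obtain ⟨-, k2', k3'⟩ := hcon' (i0 + i) (by omega)
        (by rw [← e0']; exact hle hsort' _ _ (by omega))
        (by rw [← e1']; exact hle hsort' _ _ (by omega))
      have hne : ∀ {a b : ℝ}, SignType.sign a = SignType.sign b → a ≠ 0 → b ≠ 0 := by
        intro a b hab ha hb
        rw [hb, sign_zero] at hab
        exact ha (sign_eq_zero_iff.1 hab)
      rcases k1 with k1 | k1
      · have v := hval (i0 + i) (by omega) (by omega)
        rw [k2 k1 s hs, k2' (hne v.2.2.1 k1) s' hs']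
        exact v.2.2.2
      · have v := hval (i0 + i + 1) (by omega) (by omega)
        rw [k3 k1 s hs, k3' (hne v.2.2.1 k1) s' hs']
        exact v.2.2.2)
  have a0 : φ 0 = 0 := by
    have := hφ3 0 (Nat.zero_le _)
    simp only [Nat.add_zero] at this
    rwa [List.getD_eq_getElem _ _ hi0, List.getD_eq_getElem _ _ (hlen ▸ hi0), e0, e0'] at this
  have a1 : φ 1 = 1 := by
    have := hφ3 (i1 - i0) le_rfl
    simp only [show i0 + (i1 - i0) = i1 by omega] at this
    rwa [List.getD_eq_getElem _ _ hi1, List.getD_eq_getElem _ _ (hlen ▸ hi1), e1, e1'] at this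
  simp only [Nat.add_zero, show i0 + (i1 - i0) = i1 by omega] at hφ4
  rw [List.getD_eq_getElem _ _ hi0, List.getD_eq_getElem _ _ hi1, e0, e1] at hφ4
  obtain ⟨ψ, hψ⟩ := iso_of_mono hφ1 hφ2 a0 a1
  exact ⟨ψ, fun s => by rw [hψ]; exact hφ4 s s.2⟩

end Pool.Agent.QC
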