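import Pool.Agent.QC.Word.Table
import Pool.Agent.QC.Word.Sem

/-!
# The order type of the roots of a complex polynomial is easy
-/

namespace Pool.Agent.QC

open MvPolynomial

theorem leadingCoeff_rot (p : Polynomial ℂ) :
    (rot p).leadingCoeff = p.leadingCoeff * Complex.I ^ p.natDegree := by
  rw [Polynomial.leadingCoeff, natDegree_rot, rot_coeff]; rfl

theorem normSq_rot (p : Polynomial ℂ) :
    Complex.normSq (rot p).leadingCoeff = Complex.normSq p.leadingCoeff := by
  rw [leadingCoeff_rot, Complex.normSq_mul, map_pow, Complex.normSq_I, one_pow, mul_one]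

theorem rot_ne_zero {p : Polynomial ℂ} (hp : p ≠ 0) : rot p ≠ 0 := by
  rw [← Polynomial.leadingCoeff_ne_zero] at hp ⊢
  rw [leadingCoeff_rot]
  exact mul_ne_zero hp (pow_ne_zero _ Complex.I_ne_zero)

theorem mem_roots_rot {p : Polynomial ℂ} {z : ℂ} (hz : z ∈ p.roots) :
    -Complex.I * z ∈ (rot p).roots := by
  have hp : p ≠ 0 := Polynomial.ne_zero_of_mem_roots hz
  rw [Polynomial.mem_roots (rot_ne_zero hp), Polynomial.IsRoot, rot, Polynomial.eval_comp]
  have h1 : Complex.I * (-Complex.I * z) = z := by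
    rw [← mul_assoc, mul_neg, Complex.I_mul_I]; ring
  simp only [Polynomial.eval_mul, Polynomial.eval_C, Polynomial.eval_X, h1]
  exact (Polynomial.mem_roots hp).1 hz

/-- The grid. -/
theorem mem_rootList_rot {p : Polynomial ℂ} {z : ℂ} (hz : z ∈ p.roots) :
    2 * Complex.normSq p.leadingCoeff * z.im ∈ rootList (XR (rot p)) := by
  have h := mem_rootList_XR (mem_roots_rot hz)
  rw [normSq_rot] at h
  have h1 : (-Complex.I * z).re = z.im := by simp
  rwa [h1] at h

section Easy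

variable {ι : Type*} {L : ι → ℕ} {σ : ι → Type*} {n : ι → ℕ}
  {a b : ∀ i, ℕ → MvPolynomial (σ i) ℤ}

/-- The two systems of power sums on the set where the degree is `m`. -/
theorem EasyP.sr2 {m : ι → ℕ} (hn : Bd L n) (hmn : ∀ i, m i ≤ n i)
    (ha : EasyP L (fun i => a i '' Set.Iic (n i))) (hb : EasyP L (fun i => b i '' Set.Iic (n i))) :
    ∃ s t : ∀ i, ℕ → MvPolynomial (σ i) ℤ, EasyP L (fun i => s i '' Set.Iic (2 * m i ^ 2)) ∧
      EasyP L (fun i => t i '' Set.Iic (2 * m i ^ 2)) ∧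
      ∀ i, ∀ x, (cp (a i) (b i) (n i) x).natDegree = m i → ∀ k ≤ 2 * m i ^ 2,
        ev x (s i k) = SR (cp (a i) (b i) (n i) x) k ∧
        ev x (t i k) = SR (QC.rot (cp (a i) (b i) (n i) x)) k := by
  have hm : Bd L m := hn.mono hmn
  have h1 := EasyP.fa hn ha hb
  have h2 := EasyP.fb hn ha hb
  have hX := EasyP.var1 (L := L) (σ := fun i => Option (σ i)) (fun i => none)
  have h3 := EasyP.rot hn h1 hX
  have h4 := EasyP.rot hn h2 hX.neg
  have hsub : ∀ i (f : ℕ → MvPolynomial (Option (σ i)) ℤ),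
      f '' Set.Iic (m i) ⊆ f '' Set.Iic (n i) := fun i f =>
    Set.image_mono (Set.Iic_subset_Iic.2 (hmn i))
  obtain ⟨s, hs, hs'⟩ := EasyP.sr (D := fun i => {x | (cp (a i) (b i) (n i) x).natDegree = m i})
    (P := fun i x => cp (a i) (b i) (n i) x) hm (h1.mono fun i => hsub i _)
    (h2.mono fun i => hsub i _) (fun i x _ k => cev_fa _ _ _ _ _) (fun i x _ k => cev_fb _ _ _ _ _)
    (fun i x hx => hx)
  obtain ⟨t, ht, ht'⟩ := EasyP.sr (D := fun i => {x | (cp (a i) (b i) (n i) x).natDegree = m i})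
    (P := fun i x => QC.rot (cp (a i) (b i) (n i) x)) hm (h3.mono fun i => hsub i _)
    (h4.mono fun i => hsub i _) (fun i x _ k => cev_rfa _ _ _ _ _)
    (fun i x _ k => cev_rfb _ _ _ _ _) (fun i x hx => by rw [natDegree_rot]; exact hx)
  exact ⟨s, t, hs, ht, fun i x hx k hk => ⟨hs' i x hx k hk, ht' i x hx k hk⟩⟩

theorem spec_xpoly_SR {τ : Type*} {m : ℕ} {s : ℕ → MvPolynomial τ ℤ} {x : τ → ℝ}
    {p : Polynomial ℂ} (hp : p.natDegree = m) (h : ∀ k ≤ 2 * m ^ 2, ev x (s k) = SR p k) :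
    spec (xpoly (m ^ 2) s) x = XR p := by
  rw [spec_xpoly, XR, hp]
  exact xpoly_congr fun k hk => h k (by omega)

theorem OT_of_natDegree_zero {p : Polynomial ℂ} (hp : p.natDegree = 0) : Lab.OT p = ∅ := by
  rw [Polynomial.eq_C_of_natDegree_eq_zero hp, Lab.OT, Polynomial.roots_C]
  rfl

theorem spec_rename_some {τ : Type*} (P : Polynomial (MvPolynomial τ ℤ)) (x : τ → ℝ) (u : ℝ) :
    spec (P.map (MvPolynomial.rename (R := ℤ) (some : τ → Option τ)).toRingHom) (pt x u) =
      spec P x := by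
  rw [spec, spec, Polynomial.map_map]
  congr 1
  refine MvPolynomial.ringHom_ext (fun r => ?_) fun j => ?_
  · simp
  · simp

/-- The order type on the set where the degree is `m`. -/
theorem Easy.OT_deg {m : ι → ℕ} (hn : Bd L n) (hmn : ∀ i, m i ≤ n i)
    (ha : EasyP L (fun i => a i '' Set.Iic (n i))) (hb : EasyP L (fun i => b i '' Set.Iic (n i)))
    {D : ∀ i, Set (σ i → ℝ)} (hD : ∀ i, ∀ x ∈ D i, (cp (a i) (b i) (n i) x).natDegree = m i) :
    Easy L D (fun i x => Lab.OT (cp (a i) (b i) (n i) x)) := by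
  have hm : Bd L m := hn.mono hmn
  obtain ⟨s, t, hs, ht, hst⟩ := EasyP.sr2 hn hmn ha hb
  have hN : Bd L (fun i => m i ^ 2) := hm.pow 2
  have hsub : ∀ i (f : ℕ → MvPolynomial (σ i) ℤ),
      f '' Set.Iic (m i ^ 2) ⊆ f '' Set.Iic (2 * m i ^ 2) := fun i f =>
    Set.image_mono (Set.Iic_subset_Iic.2 (by omega))
  have hxs := EasyP.xpoly hN (hs.mono fun i => hsub i _)
  have hxt := EasyP.xpoly hN (ht.mono fun i => hsub i _)
  -- the test
  have h1 := EasyP.fa hn ha hb
  have h2 := EasyP.fb hn ha hb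
  have hsub' : ∀ i (f : ℕ → MvPolynomial (Option (σ i)) ℤ),
      f '' Set.Iic (m i) ⊆ f '' Set.Iic (n i) := fun i f =>
    Set.image_mono (Set.Iic_subset_Iic.2 (hmn i))
  have h3 := Easy.cevZero (σ := fun i => Option (Option (σ i))) (D := fun _ => Set.univ)
    (EasyP.tp hm (h1.mono fun i => hsub' i _) (h2.mono fun i => hsub' i _))
  -- inner roots
  have hxt' : EasyP L (σ := fun i => Option (σ i)) (fun i => Set.range
      ((xpoly (m i ^ 2) (t i)).map (MvPolynomial.rename (R := ℤ) (some : σ i → Option (σ i))).toRingHom).coeff) := by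
    refine (hxt.rename (τ := fun i => Option (σ i)) fun i => some).mono fun i => ?_
    rintro _ ⟨k, rfl⟩
    rw [Polynomial.coeff_map]
    exact ⟨_, ⟨k, rfl⟩, rfl⟩
  have h4 := h3.roots hxt' (hN.mono fun i => Polynomial.natDegree_map_le.trans
    (natDegree_xpoly_le _ _)) (D := fun _ => Set.univ) (fun _ _ _ _ _ => Set.mem_univ _)
  have h5 := h4.roots hxs (hN.mono fun i => natDegree_xpoly_le _ _) (D := D)
    (fun _ _ _ _ _ => Set.mem_univ _)
  refine h5.factor fun i x hx y hy hxy => ?_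
  have hsp : ∀ x u, spec ((xpoly (m i ^ 2) (t i)).map
      (MvPolynomial.rename (R := ℤ) (some : σ i → Option (σ i))).toRingHom) (pt x u) =
      spec (xpoly (m i ^ 2) (t i)) x := fun x u => spec_rename_some _ x u
  simp only [hsp] at hxy
  have hX : ∀ x ∈ D i, spec (xpoly (m i ^ 2) (s i)) x = XR (cp (a i) (b i) (n i) x) ∧
      spec (xpoly (m i ^ 2) (t i)) x = XR (rot (cp (a i) (b i) (n i) x)) := fun x hx =>
    ⟨spec_xpoly_SR (hD i x hx) fun k hk => (hst i x (hD i x hx) k hk).1,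
      spec_xpoly_SR (by rw [natDegree_rot]; exact hD i x hx)
        fun k hk => (hst i x (hD i x hx) k hk).2⟩
  rw [(hX x hx).1, (hX x hx).2, (hX y hy).1, (hX y hy).2] at hxy
  by_cases hm0 : m i = 0
  · rw [OT_of_natDegree_zero ((hD i x hx).trans hm0), OT_of_natDegree_zero ((hD i y hy).trans hm0)]
  have hne : ∀ x ∈ D i, cp (a i) (b i) (n i) x ≠ 0 := fun x hx h0 => hm0 (by
    rw [← hD i x hx, h0, Polynomial.natDegree_zero])
  have hpos : ∀ x ∈ D i, 0 < 2 * Complex.normSq (cp (a i) (b i) (n i) x).leadingCoeff :=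
    fun x hx => mul_pos two_pos (Complex.normSq_pos.2 (Polynomial.leadingCoeff_ne_zero.2 (hne x hx)))
  have hT : ∀ x ∈ D i, ∀ u v, (cev (ptI (pt (pt x u) v))
      (tp (fa (a i) (b i) (n i)) (fb (a i) (b i) (n i)) (m i)) = 0) =
      ((cp (a i) (b i) (n i) x).eval (((u : ℂ) + (v : ℂ) * Complex.I) /
        ((2 * Complex.normSq (cp (a i) (b i) (n i) x).leadingCoeff : ℝ) : ℂ)) = 0) := by
    intro x hx u v
    rw [cev_tp (cev_fa _ _ _ _) (cev_fb _ _ _ _) (hD i x hx) (hne x hx), mul_eq_zero]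
    have h7 : ((2 * Complex.normSq (cp (a i) (b i) (n i) x).leadingCoeff : ℝ) : ℂ) ^ m i ≠ 0 :=
      pow_ne_zero _ (by exact_mod_cast (hpos x hx).ne')
    exact propext ⟨fun h => h.resolve_left h7, Or.inr⟩
  simp only [hT x hx, hT y hy] at hxy
  exact OT_of_table (hpos x hx) (hpos y hy) (sortedLT_rootList _) (sortedLT_rootList _)
    (sortedLT_rootList _) (sortedLT_rootList _) (fun z hz => mem_rootList_XR hz)
    (fun z hz => mem_rootList_rot hz) (fun z hz => mem_rootList_XR hz)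
    (fun z hz => mem_rootList_rot hz) (hne x hx) (hne y hy) hxy

/-- **The order type of the roots is easy.** -/
theorem Easy.OTc (hn : Bd L n) (ha : EasyP L (fun i => a i '' Set.Iic (n i)))
    (hb : EasyP L (fun i => b i '' Set.Iic (n i))) {D : ∀ i, Set (σ i → ℝ)} :
    Easy L D (fun i x => Lab.OT (cp (a i) (b i) (n i) x)) := by
  refine (Easy.degree hn ha hb).bind' ?_
  let g : {p : Σ _ : ι, ℕ // (D p.1 ∩ (fun x => (cp (a p.1) (b p.1) (n p.1) x).natDegree) ⁻¹'
    {p.2}).Nonempty} → ι := fun p => p.1.1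
  refine Easy.OT_deg (L := fun p => L (g p)) (n := fun p => n (g p)) (m := fun p => p.1.2)
    (a := fun p => a (g p)) (b := fun p => b (g p)) (hn.comap g) (fun p => ?_) (ha.comap g)
    (hb.comap g) (fun p x hx => hx.2)
  obtain ⟨x, _, hx⟩ := p.2
  rw [← show (cp (a p.1.1) (b p.1.1) (n p.1.1) x).natDegree = p.1.2 from hx]
  exact natDegree_cp_le _ _ _ _

end Easy

end Pool.Agent.QC
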