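import Mathlib

/-!
# Continuity of the roots

A family of complex polynomials with continuous coefficients, of constant degree and with a
constant number of distinct roots: the distinct roots move continuously and do not split.
-/

set_option autoImplicit false

namespace Pool.Agent.QC

open Polynomial Filter Topology

/-- The set of the distinct roots. -/
noncomputable def rootS (p : ℂ[X]) : Finset ℂ := p.roots.toFinset

lemma mem_rootS {p : ℂ[X]} (hp : p ≠ 0) {z : ℂ} : z ∈ rootS p ↔ p.eval z = 0 := by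
  simp [rootS, hp]

private lemma pow_card_le (z : ℂ) {ρ : ℝ} (hρ : 0 ≤ ρ) (s : Multiset ℂ) :
    (∀ w ∈ s, ρ ≤ ‖z - w‖) → ρ ^ s.card ≤ ‖(s.map (fun w => z - w)).prod‖ := by
  induction s using Multiset.induction_on with
  | empty => intro _; simp
  | cons a s ih =>
    intro h
    rw [Multiset.card_cons, Multiset.map_cons, Multiset.prod_cons, norm_mul, pow_succ, mul_comm]
    exact mul_le_mul (h a (Multiset.mem_cons_self a s))
      (ih fun w hw => h w (Multiset.mem_cons_of_mem hw)) (pow_nonneg hρ _) (norm_nonneg _)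

/-- Lower bound of a polynomial away from its roots. -/
lemma norm_eval_ge (p : ℂ[X]) (z : ℂ) {ρ : ℝ} (hρ : 0 ≤ ρ)
    (h : ∀ w ∈ p.roots, ρ ≤ ‖z - w‖) :
    ‖p.coeff p.natDegree‖ * ρ ^ p.natDegree ≤ ‖p.eval z‖ := by
  have hs := IsAlgClosed.splits p
  rw [hs.eval_eq_prod_roots, norm_mul, hs.natDegree_eq_card_roots, leadingCoeff,
    hs.natDegree_eq_card_roots]
  exact mul_le_mul_of_nonneg_left (pow_card_le z hρ _ h) (norm_nonneg _)

/-- The values of two polynomials with close coefficients. -/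
lemma norm_eval_sub_le {p q : ℂ[X]} {n : ℕ} (hp : p.natDegree ≤ n) (hq : q.natDegree ≤ n)
    (z : ℂ) : ‖p.eval z - q.eval z‖ ≤
      (∑ k ∈ Finset.range (n + 1), ‖p.coeff k - q.coeff k‖) * (max 1 ‖z‖) ^ n := by
  rw [eval_eq_sum_range' (Nat.lt_succ_of_le hp), eval_eq_sum_range' (Nat.lt_succ_of_le hq),
    ← Finset.sum_sub_distrib, Finset.sum_mul]
  refine (norm_sum_le _ _).trans (Finset.sum_le_sum fun k hk => ?_)
  rw [← sub_mul, norm_mul, norm_pow]
  refine mul_le_mul_of_nonneg_left ?_ (norm_nonneg _)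
  have h1 : ‖z‖ ^ k ≤ (max 1 ‖z‖) ^ k := pow_le_pow_left₀ (norm_nonneg _) (le_max_right _ _) k
  exact h1.trans (pow_le_pow_right₀ (le_max_left _ _) (by
    have := Finset.mem_range.1 hk
    omega))

variable {T : Type*} [TopologicalSpace T]

/-- The roots persist. -/
theorem eventually_root_near {p : T → ℂ[X]} {t₀ : T} {n : ℕ}
    (hc : ∀ k, ContinuousAt (fun t => (p t).coeff k) t₀) (hn : ∀ t, (p t).natDegree = n)
    (h0 : p t₀ ≠ 0) {w : ℂ} (hw : (p t₀).eval w = 0) {ε : ℝ} (hε : 0 < ε) :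
    ∀ᶠ t in 𝓝 t₀, p t ≠ 0 ∧ ∃ z, (p t).eval z = 0 ∧ ‖z - w‖ < ε := by
  have ha : (p t₀).coeff n ≠ 0 := by
    rw [← hn t₀]
    exact leadingCoeff_ne_zero.2 h0
  have h1 : Tendsto (fun t => (∑ k ∈ Finset.range (n + 1), ‖(p t).coeff k - (p t₀).coeff k‖) *
      (max 1 ‖w‖) ^ n) (𝓝 t₀) (𝓝 0) := by
    have h2 : Tendsto (fun t => (∑ k ∈ Finset.range (n + 1), ‖(p t).coeff k - (p t₀).coeff k‖) *
      (max 1 ‖w‖) ^ n) (𝓝 t₀) (𝓝 ((∑ k ∈ Finset.range (n + 1),
        ‖(p t₀).coeff k - (p t₀).coeff k‖) * (max 1 ‖w‖) ^ n)) := by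
      refine Tendsto.mul_const _ (tendsto_finsetSum _ fun k _ => ?_)
      exact ((hc k).sub continuousAt_const).norm
    simpa using h2
  have h3 : Tendsto (fun t => ‖(p t).coeff n‖ * ε ^ n) (𝓝 t₀)
      (𝓝 (‖(p t₀).coeff n‖ * ε ^ n)) := ((hc n).norm).mul_const _
  have hpos : 0 < ‖(p t₀).coeff n‖ * ε ^ n := mul_pos (norm_pos_iff.2 ha) (pow_pos hε n)
  have h4 := h1.eventually (gt_mem_nhds (half_pos hpos))
  have h5 := h3.eventually (lt_mem_nhds (half_lt_self hpos))
  filter_upwards [h4, h5] with t ht1 ht2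
  have hne : (p t).coeff n ≠ 0 := by
    intro h
    rw [h, norm_zero, zero_mul] at ht2
    linarith
  refine ⟨fun h => hne (by rw [h, coeff_zero]), ?_⟩
  by_contra hcon
  push Not at hcon
  have h6 := norm_eval_ge (p t) w hε.le fun z hz => by
    rw [norm_sub_rev]
    exact hcon z (by
      have := (mem_roots'.1 hz).2
      exact this)
  rw [hn t] at h6
  have h7 := norm_eval_sub_le (hn t).le (hn t₀).le w
  rw [hw, sub_zero] at h7
  linarith

/-- Constant number of distinct roots: the roots correspond bijectively to each other. -/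
theorem eventually_bij {p : T → ℂ[X]} {t₀ : T} {n : ℕ}
    (hc : ∀ k, ContinuousAt (fun t => (p t).coeff k) t₀) (hn : ∀ t, (p t).natDegree = n)
    (h0 : p t₀ ≠ 0) (hm : ∀ t, (rootS (p t)).card = (rootS (p t₀)).card) {ε : ℝ} (hε : 0 < ε) :
    ∀ᶠ t in 𝓝 t₀, ∃ f : ℂ → ℂ, Set.InjOn f (rootS (p t₀)) ∧
      rootS (p t) = (rootS (p t₀)).image f ∧ ∀ w ∈ rootS (p t₀), ‖f w - w‖ < ε := by
  classical
  -- separation of the roots
  obtain ⟨δ, hδ, hsep⟩ : ∃ δ > 0, ∀ w ∈ rootS (p t₀), ∀ w' ∈ rootS (p t₀), w ≠ w' →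
      2 * δ ≤ ‖w - w'‖ := by
    by_cases he : ((rootS (p t₀)).offDiag).Nonempty
    · obtain ⟨x, hx, hmin⟩ := Finset.exists_min_image _ (fun x : ℂ × ℂ => ‖x.1 - x.2‖) he
      rw [Finset.mem_offDiag] at hx
      refine ⟨‖x.1 - x.2‖ / 2, half_pos (norm_pos_iff.2 (sub_ne_zero.2 hx.2.2)), ?_⟩
      intro w hw w' hw' hne
      have := hmin (w, w') (Finset.mem_offDiag.2 ⟨hw, hw', hne⟩)
      simp only at this
      linarith
    · refine ⟨1, one_pos, fun w hw w' hw' hne => ?_⟩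
      exact absurd ⟨(w, w'), Finset.mem_offDiag.2 ⟨hw, hw', hne⟩⟩ he
  have hmin : 0 < min ε δ := lt_min hε hδ
  have h1 : ∀ᶠ t in 𝓝 t₀, ∀ w ∈ rootS (p t₀),
      p t ≠ 0 ∧ ∃ z, (p t).eval z = 0 ∧ ‖z - w‖ < min ε δ := by
    rw [Filter.eventually_all_finset]
    intro w hw
    exact eventually_root_near hc hn h0 ((mem_rootS h0).1 hw) hmin
  filter_upwards [h1] with t ht
  by_cases hemp : rootS (p t₀) = ∅
  · refine ⟨id, ?_, ?_, ?_⟩
    · rw [hemp]; simp
    · rw [hemp, Finset.image_empty, ← Finset.card_eq_zero, hm t, hemp, Finset.card_empty]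
    · rw [hemp]; simp
  · choose! hne f hf hfε using ht
    have hinj : Set.InjOn f (rootS (p t₀)) := by
      intro w hw w' hw' hww
      by_contra hcon
      have h2 := hsep w hw w' hw' hcon
      have h3 := (hfε w hw).trans_le (min_le_right _ _)
      have h4 := (hfε w' hw').trans_le (min_le_right _ _)
      have h5 : ‖w - w'‖ ≤ ‖f w - w‖ + ‖f w' - w'‖ := by
        have h6 : w - w' = -(f w - w) + (f w' - w') := by rw [hww]; ring
        rw [h6]
        refine (norm_add_le _ _).trans ?_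
        rw [norm_neg]
      linarith
    refine ⟨f, hinj, ?_, fun w hw => (hfε w hw).trans_le (min_le_left _ _)⟩
    refine (Finset.eq_of_subset_of_card_le ?_ ?_).symm
    · intro z hz
      obtain ⟨w, hw, rfl⟩ := Finset.mem_image.1 hz
      exact (mem_rootS (hne w hw)).2 (hf w hw)
    · rw [Finset.card_image_of_injOn hinj, hm t]

/-- Constant number of distinct roots: a root does not split. -/
theorem eventually_unique {p : T → ℂ[X]} {t₀ : T} {n : ℕ}
    (hc : ∀ k, ContinuousAt (fun t => (p t).coeff k) t₀) (hn : ∀ t, (p t).natDegree = n)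
    (h0 : p t₀ ≠ 0) (hm : ∀ t, (rootS (p t)).card = (rootS (p t₀)).card) (w : ℂ) :
    ∃ ε > 0, ∀ᶠ t in 𝓝 t₀, ∀ z ∈ rootS (p t), ∀ z' ∈ rootS (p t), ‖z - w‖ < ε → ‖z' - w‖ < ε →
      z = z' := by
  classical
  obtain ⟨δ, hδ, hsep⟩ : ∃ δ > 0, ∀ w' ∈ rootS (p t₀), w' ≠ w → 2 * δ ≤ ‖w' - w‖ := by
    by_cases he : ((rootS (p t₀)).erase w).Nonempty
    · obtain ⟨x, hx, hmin⟩ := Finset.exists_min_image _ (fun x : ℂ => ‖x - w‖) he
      rw [Finset.mem_erase] at hx
      refine ⟨‖x - w‖ / 2, half_pos (norm_pos_iff.2 (sub_ne_zero.2 hx.1)), ?_⟩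
      intro w' hw' hne
      have := hmin w' (Finset.mem_erase.2 ⟨hne, hw'⟩)
      linarith
    · refine ⟨1, one_pos, fun w' hw' hne => ?_⟩
      exact absurd ⟨w', Finset.mem_erase.2 ⟨hne, hw'⟩⟩ he
  refine ⟨δ, hδ, ?_⟩
  filter_upwards [eventually_bij hc hn h0 hm hδ] with t ht
  obtain ⟨f, hinj, him, hf⟩ := ht
  have key : ∀ z ∈ rootS (p t), ‖z - w‖ < δ → z = f w := by
    intro z hz hzw
    rw [him] at hz
    obtain ⟨w', hw', rfl⟩ := Finset.mem_image.1 hz
    by_contra hcon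
    have hne : w' ≠ w := fun h => hcon (by rw [h])
    have h1 := hsep w' hw' hne
    have h2 := hf w' hw'
    have h3 : ‖w' - w‖ ≤ ‖f w' - w‖ + ‖f w' - w'‖ := by
      have h4 : w' - w = (f w' - w) - (f w' - w') := by ring
      rw [h4]
      exact norm_sub_le _ _
    linarith
  intro z hz z' hz' h1 h2
  rw [key z hz h1, key z' hz' h2]

end Pool.Agent.QC
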