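import Pool.Agent.QC.Word.Gen

/-!
# The table of the roots: which of the points of the grid are roots
-/

namespace Pool.Agent.QC

open MvPolynomial

section Cong

variable {R : Type*} [CommRing R]

theorem ex_congr {s s' : ℕ → R} {N : ℕ} (h : ∀ k ≤ N, s k = s' k) : ∀ k ≤ N, ex s k = ex s' k := by
  intro k
  induction k using Nat.strong_induction_on with
  | _ k ih =>
    intro hk
    cases k with
    | zero => rw [ex_zero, ex_zero]
    | succ k =>
      rw [ex_succ, ex_succ]
      refine Finset.sum_congr rfl fun i hi => ?_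
      rw [Finset.mem_range] at hi
      rw [ih (k - i) (by omega) (by omega), h (i + 1) (by omega)]

theorem xpoly_congr {s s' : ℕ → R} {N : ℕ} (h : ∀ k ≤ N, s k = s' k) :
    xpoly N s = xpoly N s' := by
  refine Finset.sum_congr rfl fun k hk => ?_
  rw [ex_congr h k (Nat.lt_succ_iff.1 (Finset.mem_range.1 hk))]

omit [CommRing R] in
theorem hk_congr {s s' : ℕ → R} {N : ℕ} (h : ∀ k ≤ 2 * N, s k = s' k) : hk N s = hk N s' := by
  ext i j
  rw [hk, hk, Matrix.of_apply, Matrix.of_apply]
  exact h _ (by omega)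

end Cong

theorem natDegree_congr {p q : Polynomial ℂ} (h : ∀ k, p.coeff k = 0 ↔ q.coeff k = 0) :
    p.natDegree = q.natDegree := by
  have h1 : p.support = q.support := by
    ext k
    rw [Polynomial.mem_support_iff, Polynomial.mem_support_iff, Ne, Ne, h]
  rw [Polynomial.natDegree, Polynomial.natDegree, Polynomial.degree, Polynomial.degree, h1]

theorem spec_xpoly {σ : Type*} (N : ℕ) (s : ℕ → MvPolynomial σ ℤ) (x : σ → ℝ) :
    spec (xpoly N s) x = xpoly N (fun k => ev x (s k)) := by
  rw [spec, map_xpoly]; rfl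

section Easy

variable {ι : Type*} {L : ι → ℕ} {σ : ι → Type*} {n : ι → ℕ}
  {a b : ∀ i, ℕ → MvPolynomial (σ i) ℤ}

/-- The degree. -/
theorem Easy.degree (hn : Bd L n) (ha : EasyP L (fun i => a i '' Set.Iic (n i)))
    (hb : EasyP L (fun i => b i '' Set.Iic (n i))) {D : ∀ i, Set (σ i → ℝ)} :
    Easy L D (fun i x => (cp (a i) (b i) (n i) x).natDegree) := by
  have hκ : Bd L (fun i => Fintype.card (Fin (n i + 1))) := by
    simpa using hn.add (Bd.const 1)
  have h1 := Easy.signs (D := D) hκ
    (EasyP.range (f := fun i (k : Fin (n i + 1)) => a i k) hκ ha.of_iic)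
  have h2 := Easy.signs (D := D) hκ
    (EasyP.range (f := fun i (k : Fin (n i + 1)) => b i k) hκ hb.of_iic)
  refine (h1.pair h2).factor fun i x _ y _ hxy => ?_
  rw [Prod.mk.injEq] at hxy
  refine natDegree_congr fun k => ?_
  rw [cp_coeff, cp_coeff]
  by_cases hk : k ≤ n i
  · rw [if_pos hk, if_pos hk]
    have h3 := congrFun hxy.1 ⟨k, Nat.lt_succ_of_le hk⟩
    have h4 := congrFun hxy.2 ⟨k, Nat.lt_succ_of_le hk⟩
    have h5 : ∀ u v : ℝ, (u : ℂ) + (v : ℂ) * Complex.I = 0 ↔ u = 0 ∧ v = 0 := by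
      intro u v
      constructor
      · intro h
        have h6 := congrArg Complex.re h
        have h7 := congrArg Complex.im h
        simp at h6 h7
        exact ⟨h6, h7⟩
      · rintro ⟨rfl, rfl⟩; simp
    simp only at h3 h4
    rw [h5, h5, ← sign_eq_zero_iff, ← sign_eq_zero_iff (a := ev x (b i k)), h3, h4,
      sign_eq_zero_iff, sign_eq_zero_iff]
  · rw [if_neg hk, if_neg hk]

end Easy

section TDef

variable {σ : Type*}

/-- `c ^ m * p ((u + i v) / c)`, `c = 2 |p_m| ^ 2`; `none` = the imaginary unit, `some none = v`,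
`some (some none) = u`. -/
noncomputable def tp (α β : ℕ → MvPolynomial (Option σ) ℤ) (m : ℕ) :
    MvPolynomial (Option (Option (Option σ))) ℤ :=
  ∑ k ∈ Finset.range (m + 1),
    rename (Option.map fun j => some (some j)) (α k) *
      (X (some (some none)) + X none * X (some none)) ^ k *
      (2 * (rename (Option.map fun j => some (some j)) (α m) *
        rename (Option.map fun j => some (some j)) (β m))) ^ (m - k)

theorem cev_rename_map (x : σ → ℝ) (u v : ℝ) (g : MvPolynomial (Option σ) ℤ) :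
    cev (ptI (pt (pt x u) v)) (rename (Option.map fun j => some (some j)) g) =
      cev (ptI x) g := by
  rw [cev, cev, aeval_rename]
  congr 2
  funext o
  cases o <;> rfl

theorem cev_tp {α β : ℕ → MvPolynomial (Option σ) ℤ} {m : ℕ} {x : σ → ℝ} {p : Polynomial ℂ}
    (h1 : ∀ k, cev (ptI x) (α k) = p.coeff k) (h2 : ∀ k, cev (ptI x) (β k) = (cjW p).coeff k)
    (h3 : p.natDegree = m) (h0 : p ≠ 0) (u v : ℝ) :
    cev (ptI (pt (pt x u) v)) (tp α β m) =
      ((2 * Complex.normSq p.leadingCoeff : ℝ) : ℂ) ^ m *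
        p.eval (((u : ℂ) + (v : ℂ) * Complex.I) / ((2 * Complex.normSq p.leadingCoeff : ℝ) : ℂ)) := by
  have hl : p.leadingCoeff ≠ 0 := Polynomial.leadingCoeff_ne_zero.2 h0
  have hc : (((2 * Complex.normSq p.leadingCoeff : ℝ)) : ℂ) ≠ 0 := by
    have : (2 * Complex.normSq p.leadingCoeff : ℝ) ≠ 0 :=
      mul_ne_zero two_ne_zero (by rwa [Ne, Complex.normSq_eq_zero])
    exact_mod_cast this
  have h4 : cev (ptI (pt (pt x u) v)) (2 * (rename (Option.map fun j => some (some j)) (α m) *
        rename (Option.map fun j => some (some j)) (β m))) =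
      ((2 * Complex.normSq p.leadingCoeff : ℝ) : ℂ) := by
    have h5 := cev_rename_map x u v (α m)
    have h6 := cev_rename_map x u v (β m)
    rw [h1] at h5
    rw [h2, cjW, Polynomial.coeff_map] at h6
    unfold cev at h5 h6 ⊢
    rw [map_mul, map_mul, h5, h6, map_ofNat, ← h3]
    have h7 : p.coeff p.natDegree = p.leadingCoeff := rfl
    rw [h7, Complex.mul_conj]
    push_cast; ring
  set c : ℂ := ((2 * Complex.normSq p.leadingCoeff : ℝ) : ℂ) with hcdef
  have h8 : cev (ptI (pt (pt x u) v)) (X (some (some none)) + X none * X (some none)) =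
      (u : ℂ) + (v : ℂ) * Complex.I := by
    unfold cev
    rw [map_add, map_mul, aeval_X, aeval_X, aeval_X]
    show (u : ℂ) + Complex.I * (v : ℂ) = _
    ring
  rw [tp]
  have h9 : ∀ f : ℕ → MvPolynomial (Option (Option (Option σ))) ℤ, ∀ s : Finset ℕ,
      cev (ptI (pt (pt x u) v)) (∑ k ∈ s, f k) = ∑ k ∈ s, cev (ptI (pt (pt x u) v)) (f k) :=
    fun f s => map_sum _ _ _
  rw [h9, Polynomial.eval_eq_sum_range, h3, Finset.mul_sum]
  refine Finset.sum_congr rfl fun k hk => ?_
  have hk' : k ≤ m := Nat.lt_succ_iff.1 (Finset.mem_range.1 hk)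
  have h5 := cev_rename_map x u v (α k)
  rw [h1] at h5
  unfold cev at h5 h8 h4 ⊢
  rw [map_mul, map_mul, map_pow, map_pow, h5, h8, h4, div_pow]
  have h10 : c ^ m = c ^ k * c ^ (m - k) := by rw [← pow_add]; congr 1; omega
  rw [h10]
  have hck : c ^ k ≠ 0 := pow_ne_zero _ hc
  field_simp

end TDef

section Easy

variable {ι : Type*} {L : ι → ℕ} {σ : ι → Type*} {m : ι → ℕ}
  {α β : ∀ i, ℕ → MvPolynomial (Option (σ i)) ℤ}

theorem EasyP.iic_sum {τ : ι → Type*} {f : ∀ i, ℕ → MvPolynomial (τ i) ℤ} (hm : Bd L m)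
    (hf : EasyP L (fun i => f i '' Set.Iic (m i))) :
    EasyP L (fun i => {∑ k ∈ Finset.range (m i + 1), f i k}) := by
  have hκ : Bd L (fun i => Fintype.card (Fin (m i + 1))) := by
    simpa using hm.add (Bd.const 1)
  have h1 := EasyP.sum hκ (EasyP.range (f := fun i (k : Fin (m i + 1)) => f i k) hκ hf.of_iic)
  refine h1.mono fun i => ?_
  rintro _ rfl
  rw [Set.mem_singleton_iff, Fin.sum_univ_eq_sum_range (fun k => f i k) (m i + 1)]

theorem EasyP.iic_mul {τ : ι → Type*} {f g : ∀ i, ℕ → MvPolynomial (τ i) ℤ} (hm : Bd L m)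
    (hf : EasyP L (fun i => f i '' Set.Iic (m i))) (hg : EasyP L (fun i => g i '' Set.Iic (m i))) :
    EasyP L (fun i => (fun k => f i k * g i k) '' Set.Iic (m i)) :=
  EasyP.iic_of hm (hf.of_iic.mul hg.of_iic)

theorem EasyP.iic_rename {τ τ' : ι → Type*} {f : ∀ i, ℕ → MvPolynomial (τ i) ℤ} (hm : Bd L m)
    (hf : EasyP L (fun i => f i '' Set.Iic (m i))) (g : ∀ i, τ i → τ' i) :
    EasyP L (fun i => (fun k => MvPolynomial.rename (g i) (f i k)) '' Set.Iic (m i)) :=
  EasyP.iic_of hm (hf.of_iic.rename1 (τ := fun p : Σ i, Fin (m i + 1) => τ' p.1) fun p => g p.1)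

theorem EasyP.iic_pow {τ : ι → Type*} {g : ∀ i, MvPolynomial (τ i) ℤ} (hm : Bd L m)
    (hg : EasyP L (fun i => {g i})) {e : ι → ℕ → ℕ} (he : ∀ i, ∀ k ≤ m i, e i k ≤ m i) :
    EasyP L (fun i => (fun k => g i ^ e i k) '' Set.Iic (m i)) := by
  refine EasyP.iic_of hm ?_
  have hk : Bd (fun p : Σ i, Fin (m i + 1) => L p.1) (fun p => e p.1 (p.2 : ℕ)) :=
    (hm.comap (fun p : Σ i, Fin (m i + 1) => p.1)).mono fun p => he _ _ (Nat.lt_succ_iff.1 p.2.2)
  exact (hg.comap (fun p : Σ i, Fin (m i + 1) => p.1)).pow hk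

theorem EasyP.tp (hm : Bd L m)
    (hα : EasyP L (σ := fun i => Option (σ i)) (fun i => α i '' Set.Iic (m i)))
    (hβ : EasyP L (σ := fun i => Option (σ i)) (fun i => β i '' Set.Iic (m i))) :
    EasyP L (σ := fun i => Option (Option (Option (σ i)))) (fun i => {QC.tp (α i) (β i) (m i)}) := by
  have h2 : EasyP L (σ := fun i => Option (Option (Option (σ i))))
      (fun i => {(X (some (some none)) + X none * X (some none) :
        MvPolynomial (Option (Option (Option (σ i)))) ℤ)}) :=
    (EasyP.var1 (L := L) (σ := fun i => Option (Option (Option (σ i))))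
      (fun i => some (some none))).add ((EasyP.var1 (L := L)
      (σ := fun i => Option (Option (Option (σ i)))) (fun i => none)).mul (EasyP.var1 (L := L)
      (σ := fun i => Option (Option (Option (σ i)))) (fun i => some none)))
  have h3 := (hα.of_mem (p := fun i => α i (m i)) fun i => ⟨m i, Set.mem_Iic.2 le_rfl, rfl⟩).rename1
    (τ := fun i => Option (Option (Option (σ i)))) (fun i => Option.map fun j => some (some j))
  have h4 := (hβ.of_mem (p := fun i => β i (m i)) fun i => ⟨m i, Set.mem_Iic.2 le_rfl, rfl⟩).rename1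
    (τ := fun i => Option (Option (Option (σ i)))) (fun i => Option.map fun j => some (some j))
  have h5 : EasyP L (σ := fun i => Option (Option (Option (σ i))))
      (fun i => {(2 * (MvPolynomial.rename (Option.map fun j => some (some j)) (α i (m i)) *
        MvPolynomial.rename (Option.map fun j => some (some j)) (β i (m i))) :
          MvPolynomial (Option (Option (Option (σ i)))) ℤ)}) := by
    have h7 : ∀ i, (C 2 : MvPolynomial (Option (Option (Option (σ i)))) ℤ) = 2 := by simp
    have h8 := (EasyP.const (L := L) (σ := fun i => Option (Option (Option (σ i))))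
      (fun _ => 2)).mul (h3.mul h4)
    simpa only [h7] using h8
  have h6 := EasyP.iic_rename (τ' := fun i => Option (Option (Option (σ i)))) hm hα
    (fun i => Option.map fun j => some (some j))
  exact EasyP.iic_sum hm (EasyP.iic_mul hm (EasyP.iic_mul hm h6
    (EasyP.iic_pow hm h2 (e := fun _ k => k) fun _ _ h => h))
    (EasyP.iic_pow hm h5 (e := fun i k => m i - k) fun _ _ _ => Nat.sub_le _ _))

/-- Vanishing of a polynomial with formal imaginary unit. -/
theorem Easy.cevZero {g : ∀ i, MvPolynomial (Option (σ i)) ℤ}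
    (hg : EasyP L (σ := fun i => Option (σ i)) (fun i => {g i})) {D : ∀ i, Set (σ i → ℝ)} :
    Easy L D (fun i x => cev (ptI x) (g i) = 0) := by
  have h5 : EasyP L (σ := fun i => Option (σ i)) (fun i => Set.range fun _ : Unit => g i) :=
    hg.mono fun i => by rintro _ ⟨_, rfl⟩; rfl
  obtain ⟨N, hN, h6, h7, h8⟩ := EasyP.reIm (κ := fun _ => Unit) (by simpa using Bd.const 1) h5
  have h9 := Easy.isZero (D := D) (h7.of_mem (p := fun i => reP (N i) (g i)) fun i => ⟨(), rfl⟩)
  have h10 := Easy.isZero (D := D) (h8.of_mem (p := fun i => imP (N i) (g i)) fun i => ⟨(), rfl⟩)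
  refine (h9.comp₂ h10 (fun _ p q => p ∧ q)).congr fun i x _ => ?_
  have h11 := cev_ptI (h6 i ()) x
  rw [h11]
  refine propext ⟨fun h => by rw [h.1, h.2]; simp, fun h => ?_⟩
  have h12 := congrArg Complex.re h
  have h13 := congrArg Complex.im h
  simp at h12 h13
  exact ⟨h12, h13⟩

end Easy

end Pool.Agent.QC
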